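import Pool.Agent.H890.XY.Stmts

set_option autoImplicit false

namespace Pool.Agent.H890.XY

open Filter Topology
open scoped ENNReal

/-- Task C: continuity of the threshold (helper377). -/
theorem c : TaskC := by
  intro P _ hmono hκ
  intro p0 hp0
  have hp0' : (0 : ℝ) < (p0 : ℝ) := hp0
  set S : unitInterval → Set ℝ≥0∞ := fun p => {b : ℝ≥0∞ | ∃ β : ℝ, 0 < β ∧ b = ENNReal.ofReal β ∧ P p β} with hS
  have F1 : ∀ (p : unitInterval) (c : ℝ≥0∞), sInf (S p) < c → ∃ β : ℝ, 0 < β ∧ ENNReal.ofReal β < c ∧ P p β := by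
    intro p c h
    obtain ⟨b, ⟨β, h1, h2, h3⟩, h4⟩ := sInf_lt_iff.1 h
    exact ⟨β, h1, by rw [← h2]; exact h4, h3⟩
  have F2 : ∀ (p : unitInterval) (β : ℝ), 0 < β → P p β → sInf (S p) ≤ ENNReal.ofReal β := by
    intro p β h1 h2
    exact sInf_le ⟨β, h1, rfl, h2⟩
  have hcont : Tendsto (fun p : unitInterval => (p : ℝ)) (𝓝 p0) (𝓝 (p0 : ℝ)) :=
    continuous_subtype_val.tendsto p0
  apply ContinuousAt.continuousWithinAt
  show Tendsto (fun p => sInf (S p)) (𝓝 p0) (𝓝 (sInf (S p0)))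
  rw [tendsto_order]
  constructor
  · intro a ha
    obtain ⟨a', h1, h2⟩ := exists_between ha
    obtain ⟨b, h3, h4⟩ := exists_between h2
    have ha' : a' ≠ ⊤ := h2.ne_top
    have hb : b ≠ ⊤ := h4.ne_top
    have hα : 0 < a'.toReal := ENNReal.toReal_pos (ne_of_gt (lt_of_le_of_lt (bot_le : (⊥ : ℝ≥0∞) ≤ a) h1)) ha'
    have hαβ : a'.toReal < b.toReal := (ENNReal.toReal_lt_toReal ha' hb).2 h3
    obtain ⟨κ, k0, k1, hk⟩ := hκ a'.toReal b.toReal hα hαβ
    have hlt : κ * (p0 : ℝ) < p0 := by nlinarith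
    have hev : ∀ᶠ p : unitInterval in 𝓝 p0, κ * (p : ℝ) < p0 :=
      (hcont.const_mul κ).eventually_lt_const hlt
    filter_upwards [hev] with p hp
    by_contra hcon
    have hle : sInf (S p) ≤ a := not_lt.1 hcon
    obtain ⟨β1, g1, g2, g3⟩ := F1 p a' (lt_of_le_of_lt hle h1)
    have g4 : β1 ≤ a'.toReal := by
      rw [← ENNReal.ofReal_toReal ha'] at g2
      exact ((ENNReal.ofReal_lt_ofReal_iff hα).1 g2).le
    have g5 : P p a'.toReal := hmono p β1 _ g1 g4 g3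
    have g6 : P p0 b.toReal := hk p p0 hp.le g5
    have g7 := F2 p0 b.toReal (hα.trans hαβ) g6
    rw [ENNReal.ofReal_toReal hb] at g7
    exact absurd h4 (not_lt.2 g7)
  · intro c hc
    obtain ⟨β0, g1, g2, g3⟩ := F1 p0 c hc
    obtain ⟨m, h1, h2⟩ := exists_between g2
    have hm : m ≠ ⊤ := h2.ne_top
    have hlt1 : β0 < m.toReal := by
      rw [← ENNReal.ofReal_toReal hm] at h1
      exact (ENNReal.ofReal_lt_ofReal_iff_of_nonneg g1.le).1 h1
    obtain ⟨κ, k0, k1, hk⟩ := hκ β0 m.toReal g1 hlt1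
    have hlt : κ * (p0 : ℝ) < p0 := by nlinarith
    have hev : ∀ᶠ p : unitInterval in 𝓝 p0, κ * (p0 : ℝ) < p := hcont.eventually_const_lt hlt
    filter_upwards [hev] with p hp
    have g5 : P p m.toReal := hk p0 p hp.le g3
    have g6 := F2 p m.toReal (g1.trans hlt1) g5
    rw [ENNReal.ofReal_toReal hm] at g6
    exact lt_of_le_of_lt g6 h2

end Pool.Agent.H890.XY
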