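import Pool.Agent.H890.XY.Stmts2

set_option autoImplicit false

/-! Exp: the two power series needed. -/

namespace Pool.Agent.H890.XY

open MeasureTheory Set Filter Topology Real

theorem texp_hs (x : ℝ) : HasSum (fun n : ℕ => x ^ n / (n.factorial : ℝ)) (Real.exp x) := by
  rw [Real.exp_eq_exp_ℝ]
  exact NormedSpace.expSeries_div_hasSum_exp x

theorem texp : TaskExp := by
  intro r hr
  refine ⟨⟨fun i => r ^ i / (i.factorial : ℝ), fun i => by positivity, (texp_hs r).summable,
    fun t => ?_⟩, ⟨fun i => r ^ i / (i.factorial : ℝ) - (-r) ^ i / (i.factorial : ℝ), fun i => ?_,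
    (texp_hs r).summable.sub (texp_hs (-r)).summable, fun t => ?_⟩⟩
  · refine (texp_hs (r * t)).congr_fun ?_ |> fun h => h
    intro i
    rw [mul_pow]; ring
  · dsimp only
    rw [← sub_div]
    refine div_nonneg ?_ (by positivity)
    have h1 : (-r) ^ i ≤ |(-r) ^ i| := le_abs_self _
    rw [abs_pow, abs_neg, abs_of_nonneg hr] at h1
    linarith
  · have h := (texp_hs (r * t)).sub (texp_hs (-(r * t)))
    refine h.congr_fun ?_ |> fun h => h
    intro i
    rw [mul_pow, show -(r * t) = (-r) * t by ring, mul_pow]; ring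

end Pool.Agent.H890.XY
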