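import Pool.Agent.H890.XY.Stmts2

set_option autoImplicit false
set_option linter.unusedVariables false
set_option linter.deprecated false

namespace Pool.Agent.H890.XY

open MeasureTheory Set Filter Topology Real
open Pool.Agent.H890.Tilt
open scoped ENNReal

theorem FK.cont2 {X : Type} [TopologicalSpace X] {K : X → X → ℝ} (hK : FK K) :
    Continuous (fun z : X × X => K z.1 z.2) := by
  obtain ⟨ι, _, φ, hφ, hK⟩ := hK
  have : (fun z : X × X => K z.1 z.2) = fun z => ∑ i, φ i z.1 * φ i z.2 := by
    funext z; exact hK _ _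
  rw [this]
  exact continuous_finset_sum _ fun i _ => ((hφ i).comp continuous_fst).mul ((hφ i).comp continuous_snd)

theorem fldoublem : TaskFLdouble := by
  intro Λ Q hQ hFL
  rw [cv_integral Λ hQ]
  obtain ⟨Kn, hFK, ⟨C, hC⟩, hlim⟩ := hFL
  have ht : Tendsto (fun n => ∫ z : (Λ → TT) × (Λ → TT), Kn n z.1 z.2 ∂((unif Λ).prod (unif Λ))) atTop
      (𝓝 (∫ z : (Λ → TT) × (Λ → TT), Q (z.1 + z.2, z.1 - z.2) ∂((unif Λ).prod (unif Λ)))) := by
    refine tendsto_integral_of_dominated_convergence (fun _ => C)
      (fun n => (hFK n).cont2.aestronglyMeasurable) (integrable_const _)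
      (fun n => Eventually.of_forall fun z => ?_) (Eventually.of_forall fun z => hlim z.1 z.2)
    rw [Real.norm_eq_abs]
    exact hC n z.1 z.2
  exact ge_of_tendsto' ht fun n => (hFK n).integral_nonneg (unif Λ)

end Pool.Agent.H890.XY
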