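import Pool.Agent.H890.XY.Stmts2

set_option autoImplicit false
set_option linter.unusedSectionVars false
set_option linter.unusedVariables false
set_option linter.deprecated false

/-! Ginibre duplication for limits of positive kernels. -/

namespace Pool.Agent.H890.XY

open MeasureTheory Set Filter Topology Real
open Pool.Agent.H890.Tilt
open scoped ENNReal

theorem FLg_FK_cont {X : Type} [TopologicalSpace X] {K : X → X → ℝ} (h : FK K) :
    Continuous (fun z : X × X => K z.1 z.2) := by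
  obtain ⟨ι, _, φ, hφ, hK⟩ := h
  have h1 : (fun z : X × X => K z.1 z.2) = fun z : X × X => ∑ i, φ i z.1 * φ i z.2 := by
    funext z
    exact hK _ _
  rw [h1]
  exact continuous_finset_sum _ fun i _ =>
    ((hφ i).comp continuous_fst).mul ((hφ i).comp continuous_snd)

theorem fldouble : TaskFLdouble := by
  intro Λ Q hQ hFL
  obtain ⟨Kn, hKn, ⟨C, hC⟩, hlim⟩ := hFL
  rw [cv_integral Λ hQ]
  have ht : Tendsto (fun n => ∫ z : (Λ → TT) × (Λ → TT), Kn n z.1 z.2 ∂((unif Λ).prod (unif Λ)))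
      atTop (𝓝 (∫ z : (Λ → TT) × (Λ → TT), Q (z.1 + z.2, z.1 - z.2)
        ∂((unif Λ).prod (unif Λ)))) := by
    refine tendsto_integral_of_dominated_convergence (fun _ => C) ?_ ?_ ?_ ?_
    · intro n
      exact (FLg_FK_cont (hKn n)).aestronglyMeasurable
    · exact integrable_const C
    · intro n
      exact Eventually.of_forall fun z => by
        rw [Real.norm_eq_abs]
        exact hC n z.1 z.2
    · exact Eventually.of_forall fun z => hlim z.1 z.2
  exact ge_of_tendsto' ht fun n => (hKn n).integral_nonneg (unif Λ)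

theorem flgin : TaskFLgin := by
  intro Λ f w ws Bf hf hw hws hB h
  have c1 : ∀ g : (Λ → TT) → ℝ, Continuous g →
      Continuous (fun z : (Λ → TT) × (Λ → TT) => g z.1) := fun g hg => hg.comp continuous_fst
  have c2 : ∀ g : (Λ → TT) → ℝ, Continuous g →
      Continuous (fun z : (Λ → TT) × (Λ → TT) => g z.2) := fun g hg => hg.comp continuous_snd
  have key : 0 ≤ ∫ z : (Λ → TT) × (Λ → TT), (f z.1 - f z.2) *
      ((w z.1 * ws z.2 - ws z.1 * w z.2) * (Bf z.1 * Bf z.2)) ∂((unif Λ).prod (unif Λ)) := by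
    refine fldouble Λ (fun z => (f z.1 - f z.2) *
      ((w z.1 * ws z.2 - ws z.1 * w z.2) * (Bf z.1 * Bf z.2))) ?_ h
    exact ((c1 f hf).sub (c2 f hf)).mul
        ((((c1 w hw).mul (c2 ws hws)).sub ((c1 ws hws).mul (c2 w hw))).mul ((c1 Bf hB).mul (c2 Bf hB)))
  have e1 : ∀ z : (Λ → TT) × (Λ → TT), (f z.1 - f z.2) *
      ((w z.1 * ws z.2 - ws z.1 * w z.2) * (Bf z.1 * Bf z.2)) =
      (f z.1 * (w z.1 * Bf z.1)) * (ws z.2 * Bf z.2) - (f z.1 * (ws z.1 * Bf z.1)) * (w z.2 * Bf z.2)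
      - (w z.1 * Bf z.1) * (f z.2 * (ws z.2 * Bf z.2)) + (ws z.1 * Bf z.1) * (f z.2 * (w z.2 * Bf z.2)) := by
    intro z; ring
  simp_rw [e1] at key
  have hwB := hw.mul hB
  have hwsB := hws.mul hB
  have hfw := hf.mul hwB
  have hfws := hf.mul hwsB
  rw [integral_add, integral_sub, integral_sub] at key
  · have i1 := integral_prod_mul (μ := unif Λ) (ν := unif Λ) (fun θ => f θ * (w θ * Bf θ)) (fun θ => ws θ * Bf θ)
    have i2 := integral_prod_mul (μ := unif Λ) (ν := unif Λ) (fun θ => f θ * (ws θ * Bf θ)) (fun θ => w θ * Bf θ)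
    have i3 := integral_prod_mul (μ := unif Λ) (ν := unif Λ) (fun θ => w θ * Bf θ) (fun θ => f θ * (ws θ * Bf θ))
    have i4 := integral_prod_mul (μ := unif Λ) (ν := unif Λ) (fun θ => ws θ * Bf θ) (fun θ => f θ * (w θ * Bf θ))
    rw [i1, i2, i3, i4] at key
    linarith
  · exact integrable_of_cont _ ((c1 _ hfw).mul (c2 _ hwsB))
  · exact integrable_of_cont _ ((c1 _ hfws).mul (c2 _ hwB))
  · exact integrable_of_cont _ (((c1 _ hfw).mul (c2 _ hwsB)).sub ((c1 _ hfws).mul (c2 _ hwB)))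
  · exact integrable_of_cont _ ((c1 _ hwB).mul (c2 _ hfws))
  · exact integrable_of_cont _ ((((c1 _ hfw).mul (c2 _ hwsB)).sub ((c1 _ hfws).mul (c2 _ hwB))).sub
      ((c1 _ hwB).mul (c2 _ hfws)))
  · exact integrable_of_cont _ ((c1 _ hwsB).mul (c2 _ hfw))

end Pool.Agent.H890.XY
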