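import Pool.Agent.H890.XY.Stmts2

set_option autoImplicit false
set_option linter.unusedVariables false
set_option linter.deprecated false

namespace Pool.Agent.H890.XY

open MeasureTheory Set Filter Topology Real
open Pool.Agent.H890.Tilt
open scoped ENNReal

theorem flmulm : TaskFLmul := by
  intro X _ K L hK hL
  obtain ⟨Kn, hK1, ⟨C, hC⟩, hK3⟩ := hK
  obtain ⟨Ln, hL1, ⟨D, hD⟩, hL3⟩ := hL
  refine ⟨fun n a b => Kn n a b * Ln n a b, fun n => (hK1 n).mul (hL1 n), ⟨C * D, fun n a b => ?_⟩,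
    fun a b => (hK3 a b).mul (hL3 a b)⟩
  rw [abs_mul]
  exact mul_le_mul (hC n a b) (hD n a b) (abs_nonneg _) ((abs_nonneg _).trans (hC n a b))

theorem flserm : TaskFLser := by
  intro X _ φ hφ hφ1 c hc0 hcs K hK
  refine ⟨fun n a b => ∑ i ∈ Finset.range n, c i * (φ a * φ b) ^ i, fun n => ?_, ⟨∑' i, c i, fun n a b => ?_⟩,
    fun a b => (hK a b).tendsto_sum_nat⟩
  · induction n with
    | zero => simpa using (FK.zero (X := X))
    | succ n ih =>
      have h1 : FK (fun a b : X => c n * (φ a ^ n * φ b ^ n)) :=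
        (FK.single (hφ.pow n)).smul (hc0 n)
      refine FK.congr (ih.add h1) ?_
      intro a b
      simp only [Finset.sum_range_succ, mul_pow]
  · have hab : |φ a * φ b| ≤ 1 := by
      rw [abs_mul]
      exact mul_le_one₀ (hφ1 a) (abs_nonneg _) (hφ1 b)
    calc |∑ i ∈ Finset.range n, c i * (φ a * φ b) ^ i| ≤ ∑ i ∈ Finset.range n, |c i * (φ a * φ b) ^ i| :=
          Finset.abs_sum_le_sum_abs _ _
      _ ≤ ∑ i ∈ Finset.range n, c i := by
          refine Finset.sum_le_sum fun i _ => ?_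
          rw [abs_mul, abs_of_nonneg (hc0 i), abs_pow]
          exact mul_le_of_le_one_right (hc0 i) (pow_le_one₀ (abs_nonneg _) hab)
      _ ≤ ∑' i, c i := hcs.sum_le_tsum _ fun i _ => hc0 i

end Pool.Agent.H890.XY
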