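import Pool.Agent.H890.XY.Stmts

set_option autoImplicit false
set_option linter.unusedSectionVars false
set_option linter.unusedVariables false
set_option linter.deprecated false

/-! Ginibre core. -/

namespace Pool.Agent.H890.XY

open MeasureTheory Set Filter Topology Real
open scoped ENNReal

section FK
variable {X : Type} [TopologicalSpace X]

/-- finite sums of `φ(a) φ(b)` -/
def FK (K : X → X → ℝ) : Prop :=
  ∃ (ι : Type) (_ : Fintype ι) (φ : ι → X → ℝ), (∀ i, Continuous (φ i)) ∧
    ∀ a b, K a b = ∑ i, φ i a * φ i b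

theorem FK.single {φ : X → ℝ} (h : Continuous φ) : FK (fun a b => φ a * φ b) :=
  ⟨Unit, inferInstance, fun _ => φ, fun _ => h, fun a b => by simp⟩

theorem FK.one : FK (fun (_ _ : X) => (1 : ℝ)) :=
  ⟨Unit, inferInstance, fun _ _ => 1, fun _ => continuous_const, fun a b => by simp⟩

theorem FK.zero : FK (fun (_ _ : X) => (0 : ℝ)) :=
  ⟨Unit, inferInstance, fun _ _ => 0, fun _ => continuous_const, fun a b => by simp⟩

theorem FK.add {K L : X → X → ℝ} (hK : FK K) (hL : FK L) : FK (fun a b => K a b + L a b) := by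
  obtain ⟨ι, _, φ, hφ, hK⟩ := hK
  obtain ⟨κ, _, ψ, hψ, hL⟩ := hL
  refine ⟨ι ⊕ κ, inferInstance, Sum.elim φ ψ, ?_, ?_⟩
  · rintro (i | i)
    · exact hφ i
    · exact hψ i
  · intro a b
    simp [hK, hL]

theorem FK.mul {K L : X → X → ℝ} (hK : FK K) (hL : FK L) : FK (fun a b => K a b * L a b) := by
  obtain ⟨ι, _, φ, hφ, hK⟩ := hK
  obtain ⟨κ, _, ψ, hψ, hL⟩ := hL
  refine ⟨ι × κ, inferInstance, fun i x => φ i.1 x * ψ i.2 x, ?_, ?_⟩
  · intro i
    exact (hφ i.1).mul (hψ i.2)
  · intro a b
    simp only []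
    rw [hK, hL, Finset.sum_mul_sum, Fintype.sum_prod_type]
    refine Finset.sum_congr rfl fun i _ => Finset.sum_congr rfl fun j _ => by ring

theorem FK.smul {K : X → X → ℝ} (hK : FK K) {c : ℝ} (hc : 0 ≤ c) : FK (fun a b => c * K a b) := by
  have h : FK (fun (a b : X) => Real.sqrt c * Real.sqrt c) := FK.single (φ := fun _ : X => Real.sqrt c)
    continuous_const
  have h2 := h.mul hK
  simpa [Real.mul_self_sqrt hc] using h2

theorem FK.prod {E : Type} (s : Finset E) {K : E → X → X → ℝ} (h : ∀ e ∈ s, FK (K e)) :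
    FK (fun a b => ∏ e ∈ s, K e a b) := by
  classical
  induction s using Finset.induction_on with
  | empty => simpa using FK.one
  | insert e s he ih =>
    have := (h e (Finset.mem_insert_self _ _)).mul (ih fun e' he' => h e' (Finset.mem_insert_of_mem he'))
    simpa [Finset.prod_insert he] using this

theorem FK.congr {K L : X → X → ℝ} (hK : FK K) (h : ∀ a b, K a b = L a b) : FK L := by
  have : K = L := by funext a b; exact h a b
  rwa [← this]

variable [CompactSpace X] [MeasurableSpace X] [BorelSpace X] [SecondCountableTopology X]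
  (ν : Measure X) [IsFiniteMeasure ν]

theorem integrable_of_cont {Y : Type} [TopologicalSpace Y] [CompactSpace Y] [MeasurableSpace Y]
    [OpensMeasurableSpace Y] (μ : Measure Y) [IsFiniteMeasure μ]
    {g : Y → ℝ} (hg : Continuous g) : Integrable g μ := by
  have h := hg.integrable_of_hasCompactSupport (μ := μ) (HasCompactSupport.of_compactSpace g)
  exact h

theorem FK.integral_nonneg {K : X → X → ℝ} (hK : FK K) :
    0 ≤ ∫ z : X × X, K z.1 z.2 ∂(ν.prod ν) := by
  obtain ⟨ι, _, φ, hφ, hK⟩ := hK
  have h1 : ∀ z : X × X, K z.1 z.2 = ∑ i, φ i z.1 * φ i z.2 := fun z => hK _ _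
  simp_rw [h1]
  rw [integral_finset_sum]
  · refine Finset.sum_nonneg fun i _ => ?_
    rw [integral_prod_mul]
    exact mul_self_nonneg _
  · intro i _
    exact integrable_of_cont _ (((hφ i).comp continuous_fst).mul ((hφ i).comp continuous_snd))

end FK

section cv

instance : SecondCountableTopology TT := inferInstance

variable (Λ : Finset Vx)

instance : BorelSpace ((Λ → TT) × (Λ → TT)) := Prod.borelSpace

instance : IsProbabilityMeasure (unif Λ) := by unfold unif; infer_instance
instance : Measure.IsAddHaarMeasure (unif Λ) := by unfold unif; infer_instance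

instance : Measure.IsAddHaarMeasure ((unif Λ).prod (unif Λ)) :=
  Measure.prod.instIsAddHaarMeasure _ _

/-- `(a,b) ↦ (a+b, a-b)` -/
noncomputable def Dhom : ((Λ → TT) × (Λ → TT)) →+ ((Λ → TT) × (Λ → TT)) where
  toFun z := (z.1 + z.2, z.1 - z.2)
  map_zero' := by simp
  map_add' x y := by
    ext1
    · simp only [Prod.fst_add, Prod.snd_add]; abel
    · simp only [Prod.fst_add, Prod.snd_add]; abel

theorem half_exists (t : TT) : ∃ b : TT, b + b = t := by
  induction t using QuotientAddGroup.induction_on with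
  | H x =>
    refine ⟨((x / 2 : ℝ) : TT), ?_⟩
    rw [← AddCircle.coe_add]
    congr 1
    ring

theorem Dhom_surj : Function.Surjective (Dhom Λ) := by
  rintro ⟨θ, θ'⟩
  have h : ∀ x : Λ, ∃ b : TT, b + b = θ x - θ' x := fun x => half_exists _
  choose b hb using h
  refine ⟨(θ - b, b), ?_⟩
  ext1
  · simp [Dhom]
  · funext x
    simp only [Dhom, AddMonoidHom.coe_mk, ZeroHom.coe_mk, Pi.sub_apply]
    have := hb x
    rw [sub_sub, this]; abel

theorem Dhom_mp : MeasurePreserving (Dhom Λ) ((unif Λ).prod (unif Λ)) ((unif Λ).prod (unif Λ)) := by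
  refine AddMonoidHom.measurePreserving (f := Dhom Λ) ?_ (Dhom_surj Λ) ?_
  · show Continuous (fun z : (Λ → TT) × (Λ → TT) => (z.1 + z.2, z.1 - z.2))
    fun_prop
  · simp

theorem cv_integral {H : (Λ → TT) × (Λ → TT) → ℝ} (hH : Continuous H) :
    ∫ z, H z ∂((unif Λ).prod (unif Λ)) =
      ∫ z, H (z.1 + z.2, z.1 - z.2) ∂((unif Λ).prod (unif Λ)) := by
  have h := (Dhom_mp Λ)
  conv_lhs => rw [← h.map_eq]
  rw [integral_map h.measurable.aemeasurable hH.aestronglyMeasurable]
  rfl

end cv

end Pool.Agent.H890.XY
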