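import Pool.Agent.H890.XY.Stmts
import Pool.Agent.H853R3.PP.TaskResample

/-!
# Task H (helper853): comparison of percolation averages, edge by edge
-/

set_option autoImplicit false

namespace Pool.Agent.H890.XY

open MeasureTheory Set Filter Topology Real
open Pool.Agent.H890.Tilt
open scoped ENNReal

namespace HAux

variable {E : Type}

/-- a function depending on finitely many coordinates is measurable -/
lemma meas_fin (S : Finset E) (f : (E → Bool) → ℝ)
    (hf : ∀ ω ω' : E → Bool, (∀ e ∈ S, ω e = ω' e) → f ω = f ω') :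
    Measurable f ∧ ∃ C, ∀ ω, ‖f ω‖ ≤ C := by
  classical
  let r : (E → Bool) → (S → Bool) := fun ω e => ω e
  let s : (S → Bool) → (E → Bool) := fun η e => if h : e ∈ S then η ⟨e, h⟩ else false
  have hr : Measurable r := measurable_pi_lambda _ fun e => measurable_pi_apply _
  have hfs : f = (fun η => f (s η)) ∘ r := by
    funext ω
    refine hf _ _ fun e he => ?_
    simp [s, r, he]
  constructor
  · rw [hfs]
    exact (measurable_of_finite _).comp hr
  · obtain ⟨C, hC⟩ := (Set.finite_range (fun η => ‖f (s η)‖)).bddAbove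
    refine ⟨C, fun ω => ?_⟩
    rw [hfs]
    exact hC ⟨r ω, rfl⟩

lemma integral_bern (p : unitInterval) (g : Bool → ℝ) :
    ∫ b, g b ∂(bern p) = (1 - (p : ℝ)) * g false + p * g true := by
  have h0 := p.2.1
  have h1 : 0 ≤ 1 - (p : ℝ) := sub_nonneg.mpr p.2.2
  have h1 := integral_fintype (μ := bern p) (f := g) (Integrable.of_finite)
  rw [h1, Fintype.sum_bool, measureReal_def, measureReal_def, bern_true, bern_false,
    ENNReal.toReal_ofReal h0, ENNReal.toReal_ofReal (sub_nonneg.mpr p.2.2), smul_eq_mul,
    smul_eq_mul]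
  ring

lemma resample [DecidableEq E] (p : unitInterval) (S : Finset E) (f : (E → Bool) → ℝ)
    (hf : ∀ ω ω' : E → Bool, (∀ e ∈ S, ω e = ω' e) → f ω = f ω') (e : E) :
    ∫ ω, f ω ∂(Measure.infinitePi (fun _ : E => bern p)) =
      ∫ ω, ((1 - (p : ℝ)) * f (Function.update ω e false) + p * f (Function.update ω e true))
        ∂(Measure.infinitePi (fun _ : E => bern p)) := by
  obtain ⟨hm, C, hC⟩ := meas_fin S f hf
  have h := Pool.Agent.H853R3.PP.Resample.taskResample E (fun _ => Bool) (fun _ => bern p) e
  have hmu := Pool.Agent.H853R3.PP.Resample.measurable_upd (X := fun _ : E => Bool) e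
  conv_lhs => rw [← h]
  rw [integral_map hmu.aemeasurable hm.aestronglyMeasurable]
  have hint : Integrable (fun x : (E → Bool) × Bool => f (Function.update x.1 e x.2))
      ((Measure.infinitePi (fun _ : E => bern p)).prod (bern p)) :=
    Integrable.of_bound (hm.comp hmu).aestronglyMeasurable C
      (Filter.Eventually.of_forall fun x => hC _)
  rw [integral_prod _ hint]
  refine integral_congr_ae (Filter.Eventually.of_forall fun ω => ?_)
  exact integral_bern p (fun b => f (Function.update ω e b))

/-- the one-edge operator -/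
noncomputable def A [DecidableEq E] (p : unitInterval) (β : ℝ) (e : E) (Φ : (E → ℝ) → ℝ) :
    (E → ℝ) → ℝ :=
  fun J => (1 - (p : ℝ)) * Φ (Function.update J e 0) + p * Φ (Function.update J e β)

lemma A_mono [DecidableEq E] (p : unitInterval) (β : ℝ) (e : E) {Φ Ψ : (E → ℝ) → ℝ}
    (h : ∀ J, Φ J ≤ Ψ J) (J : E → ℝ) : A p β e Φ J ≤ A p β e Ψ J :=
  add_le_add (mul_le_mul_of_nonneg_left (h _) (sub_nonneg.mpr p.2.2))
    (mul_le_mul_of_nonneg_left (h _) p.2.1)

lemma A_comm [DecidableEq E] (p p' : unitInterval) (β β' : ℝ) {e f : E} (hef : e ≠ f)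
    (Φ : (E → ℝ) → ℝ) : A p β e (A p' β' f Φ) = A p' β' f (A p β e Φ) := by
  funext J
  unfold A
  rw [Function.update_comm hef, Function.update_comm hef, Function.update_comm hef,
    Function.update_comm hef]
  ring

/-- the operator of a list of edges -/
noncomputable def G [DecidableEq E] (p : unitInterval) (β : ℝ) : List E → ((E → ℝ) → ℝ) → (E → ℝ) → ℝ
  | [], Φ => Φ
  | e :: l, Φ => G p β l (A p β e Φ)

lemma G_mono [DecidableEq E] (p : unitInterval) (β : ℝ) (l : List E) : ∀ {Φ Ψ : (E → ℝ) → ℝ},
    (∀ J, Φ J ≤ Ψ J) → ∀ J : E → ℝ, G p β l Φ J ≤ G p β l Ψ J := by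
  induction l with
  | nil => intro Φ Ψ h J; exact h J
  | cons e l ih => intro Φ Ψ h J; exact ih (A_mono p β e h) J

lemma G_le [DecidableEq E] (p p' : unitInterval) (β β' : ℝ) (l : List E) :
    l.Nodup → ∀ Φ : (E → ℝ) → ℝ,
    (∀ J : E → ℝ, ∀ e ∈ l, A p β e Φ J ≤ A p' β' e Φ J) →
      ∀ J, G p β l Φ J ≤ G p' β' l Φ J := by
  induction l with
  | nil => intro _ Φ _ J; exact le_refl _
  | cons e l ih =>
    intro hl Φ h J
    rw [List.nodup_cons] at hl
    refine (G_mono p β l (fun J => h J e (List.mem_cons_self)) J).trans ?_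
    refine ih hl.2 (A p' β' e Φ) ?_ J
    intro J f hf
    have hef : f ≠ e := fun h => hl.1 (h ▸ hf)
    rw [A_comm p p' β β' hef, A_comm p' p' β' β' hef]
    exact A_mono p' β' e (fun J => h J f (List.mem_cons_of_mem _ hf)) J

lemma integral_eq_G [DecidableEq E] (p : unitInterval) (β : ℝ) (l : List E) :
    l.Nodup → ∀ Φ : (E → ℝ) → ℝ, (∀ J J' : E → ℝ, (∀ e ∈ l, J e = J' e) → Φ J = Φ J') → ∀ J,
    ∫ ω, Φ (fun e => if ω e then β else 0) ∂(Measure.infinitePi (fun _ : E => bern p)) =
      G p β l Φ J := by
  induction l with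
  | nil =>
    intro _ Φ h J
    have : ∀ J', Φ J' = Φ J := fun J' => h J' J (by simp)
    simp only [this, integral_const, probReal_univ, one_smul]
    rfl
  | cons e l ih =>
    intro hl Φ h J
    rw [List.nodup_cons] at hl
    have hdep : ∀ J J' : E → ℝ, (∀ f ∈ l, J f = J' f) → A p β e Φ J = A p β e Φ J' := by
      intro J J' hJ
      have hu : ∀ x : ℝ, Φ (Function.update J e x) = Φ (Function.update J' e x) := by
        intro x
        refine h _ _ fun f hf => ?_
        by_cases hfe : f = e
        · subst hfe
          simp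
        · rw [Function.update_of_ne hfe, Function.update_of_ne hfe]
          rcases List.mem_cons.mp hf with h | h
          · exact absurd h hfe
          · exact hJ f h
      unfold A
      rw [hu, hu]
    have hG := ih hl.2 (A p β e Φ) hdep J
    change _ = G p β l (A p β e Φ) J
    rw [← hG]
    rw [resample p (e :: l).toFinset (fun ω => Φ (fun e => if ω e then β else 0)) ?_ e]
    · refine integral_congr_ae (Filter.Eventually.of_forall fun ω => ?_)
      have h1 : ∀ b : Bool, (fun f => if Function.update ω e b f then β else 0) =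
          Function.update (fun f => if ω f then β else 0) e (if b then β else 0) := by
        intro b
        funext f
        by_cases hfe : f = e
        · subst hfe
          simp
        · rw [Function.update_of_ne hfe, Function.update_of_ne hfe]
      simp only [h1]
      simp [A]
    · intro ω ω' hω
      refine h _ _ fun f hf => ?_
      rw [hω f (by simpa using hf)]

end HAux

open HAux in
theorem h : TaskH := by
  classical
  intro E S Φ hΦ β β' p p' hyp
  have h1 := integral_eq_G p β S.toList S.nodup_toList Φ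
    (fun J J' h => hΦ J J' fun e he => h e (Finset.mem_toList.mpr he)) (fun _ => 0)
  have h2 := integral_eq_G p' β' S.toList S.nodup_toList Φ
    (fun J J' h => hΦ J J' fun e he => h e (Finset.mem_toList.mpr he)) (fun _ => 0)
  rw [h1, h2]
  refine G_le p p' β β' S.toList S.nodup_toList Φ (fun J e he => ?_) _
  have := hyp J e (Finset.mem_toList.mp he)
  unfold A
  convert this using 1

end Pool.Agent.H890.XY

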