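import Pool.Agent.H890.XY.Stmts

set_option autoImplicit false

namespace Pool.Agent.H890.XY

open MeasureTheory Set Filter Topology Real
open Pool.Agent.H890.Tilt
open scoped ENNReal

theorem X_ext_cont (Λ : Finset Vx) : Continuous (ext Λ) := by
  refine continuous_pi fun x => ?_
  unfold ext
  by_cases h : x ∈ Λ
  · simp only [h, dif_pos]
    exact continuous_apply _
  · simp only [h, dif_neg, not_false_eq_true]
    exact continuous_const

theorem x : TaskX := by
  intro Λ Λ' hsub g hg hdep
  have hproj := isProjectiveMeasureFamily_pi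
    (fun _ : Vx => (AddCircle.haarAddCircle : Measure TT)) Λ' Λ hsub
  let r : (Λ' → TT) → (Λ → TT) := @Finset.restrict₂ Vx (fun _ => TT) Λ Λ' hsub
  have hr : Measurable r := Finset.measurable_restrict₂ (X := fun _ => TT) hsub
  have h1 : unif Λ = (unif Λ').map r := hproj
  rw [h1, integral_map]
  · refine integral_congr_ae (Filter.Eventually.of_forall fun θ => ?_)
    apply hdep
    intro y hy
    unfold ext
    rw [dif_pos hy, dif_pos (hsub hy)]
    rfl
  · exact hr.aemeasurable
  · exact (hg.comp (X_ext_cont Λ)).aestronglyMeasurable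

end Pool.Agent.H890.XY
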