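import Pool.Agent.H890.XY.Stmts2
import Pool.Agent.H890.XY.H
import Pool.Agent.H890.XY.C
import Pool.Agent.H890.XY.X

set_option autoImplicit false
set_option linter.unusedSectionVars false
set_option linter.unusedVariables false
set_option linter.deprecated false

/-! Infinite volume and transfer for a general edge weight. -/

namespace Pool.Agent.H890.XY.Gen

open MeasureTheory Set Filter Topology Real
open Pool.Agent.H890.Tilt
open scoped ENNReal

/-- What is needed from the edge weight. -/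
structure Good (k : ℝ → TT → ℝ) : Prop where
  cont : ∀ s, Continuous (k s)
  pos : ∀ s t, 0 < k s t
  nonpos : ∀ s, ¬ 0 < s → k s = fun _ => 1
  mono : ∀ (Λ : Finset Vx) (J : Ed → ℝ) (B : Finset Ed) (x u v : Vx) (s : ℝ), 0 < s →
    FFk k Λ J B x u v (fun _ => 1) ≤ FFk k Λ J B x u v (k s)
  strict : ∀ β β' : ℝ, 0 < β → β < β' → ∃ κ : ℝ, 0 ≤ κ ∧ κ < 1 ∧
    ∀ (Λ : Finset Vx) (J : Ed → ℝ) (B : Finset Ed) (x u v : Vx),
      FFk k Λ J B x u v (k β) ≤ FFk k Λ J B x u v (fun _ => 1) +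
        κ * (FFk k Λ J B x u v (k β') - FFk k Λ J B x u v (fun _ => 1))

theorem box_mono {L L' : ℕ} (h : L ≤ L') : box L ⊆ box L' := by
  unfold box
  have h' : (L : ℤ) ≤ L' := by exact_mod_cast h
  exact Finset.product_subset_product (Finset.Icc_subset_Icc (by omega) h')
    (Finset.Icc_subset_Icc (by omega) h')

theorem mem_edges {L : ℕ} {e : Ed} : e ∈ edges L ↔ e.1 ∈ box L ∧ tip e ∈ box L := by
  unfold edges
  rw [Finset.mem_filter, Finset.mem_product]
  simp

theorem edges_mono {L L' : ℕ} (h : L ≤ L') : edges L ⊆ edges L' := by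
  intro e he
  rw [mem_edges] at he ⊢
  exact ⟨box_mono h he.1, box_mono h he.2⟩

theorem zero_mem_box (L : ℕ) : (0 : Vx) ∈ box L := by
  unfold box
  simp

theorem mem_box_of (x : Vx) : ∃ L : ℕ, x ∈ box L := by
  refine ⟨max x.1.natAbs x.2.natAbs, ?_⟩
  unfold box
  rw [Finset.mem_product, Finset.mem_Icc, Finset.mem_Icc]
  have h1 : x.1.natAbs ≤ max x.1.natAbs x.2.natAbs := le_max_left _ _
  have h2 : x.2.natAbs ≤ max x.1.natAbs x.2.natAbs := le_max_right _ _
  omega

variable {k : ℝ → TT → ℝ} (hk : Good k)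
include hk

theorem FF_one_le (Λ : Finset Vx) (J : Ed → ℝ) (B : Finset Ed) (x u v : Vx) (s : ℝ) :
    FFk k Λ J B x u v (fun _ => 1) ≤ FFk k Λ J B x u v (k s) := by
  by_cases hs : 0 < s
  · exact hk.mono Λ J B x u v s hs
  · rw [hk.nonpos s hs]

theorem wt_cont (Λ : Finset Vx) (J : Ed → ℝ) (B : Finset Ed) :
    Continuous (fun θ : Λ → TT => wt k J B (ext Λ θ)) := by
  unfold wt
  exact continuous_finset_prod _ fun e _ => (hk.cont _).comp (chi_cont Λ e.1 (tip e))

theorem wt_pos (J : Ed → ℝ) (B : Finset Ed) (η : Vx → TT) : 0 < wt k J B η :=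
  Finset.prod_pos fun e _ => hk.pos _ _

theorem wt_erase (J J' : Ed → ℝ) {S : Finset Ed} {e : Ed} (he : e ∈ S) (h : ∀ e' ≠ e, J' e' = J e')
    (η : Vx → TT) :
    wt k J' S η = k (J' e) (η e.1 - η (tip e)) * wt k J (S.erase e) η := by
  unfold wt
  rw [← Finset.mul_prod_erase S _ he]
  congr 1
  exact Finset.prod_congr rfl fun e' he' => by rw [h e' (Finset.ne_of_mem_erase he')]

theorem tpf_erase (J J' : Ed → ℝ) (Λ : Finset Vx) {S : Finset Ed} {e : Ed} (he : e ∈ S)
    (h : ∀ e' ≠ e, J' e' = J e') (x : Vx) :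
    tpf k J' Λ S x = FFk k Λ J (S.erase e) x e.1 (tip e) (k (J' e)) := by
  unfold tpf FFk
  simp_rw [wt_erase hk J J' he h]
  rfl

theorem tpf_one (J : Ed → ℝ) (Λ : Finset Vx) (S : Finset Ed) (x u v : Vx) :
    tpf k J Λ S x = FFk k Λ J S x u v (fun _ => 1) := by
  unfold tpf FFk chi
  simp only [one_mul]

theorem tpf_insert (J : Ed → ℝ) (Λ : Finset Vx) (S : Finset Ed) (x : Vx) (e : Ed) :
    tpf k J Λ S x ≤ tpf k J Λ (insert e S) x := by
  by_cases he : e ∈ S
  · rw [Finset.insert_eq_of_mem he]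
  · rw [tpf_erase hk J J Λ (Finset.mem_insert_self e S) (fun _ _ => rfl) x,
      Finset.erase_insert he, tpf_one hk J Λ S x e.1 (tip e)]
    exact FF_one_le hk _ _ _ _ _ _ _

theorem tpf_union (J : Ed → ℝ) (Λ : Finset Vx) (S D : Finset Ed) (x : Vx) :
    tpf k J Λ S x ≤ tpf k J Λ (D ∪ S) x := by
  induction D using Finset.induction_on with
  | empty => simp
  | insert e D he ih =>
    rw [Finset.insert_union]
    exact ih.trans (tpf_insert hk J Λ _ x e)

theorem tpf_mono_edges (J : Ed → ℝ) (Λ : Finset Vx) {S T : Finset Ed} (h : S ⊆ T) (x : Vx) :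
    tpf k J Λ S x ≤ tpf k J Λ T x := by
  have := tpf_union hk J Λ S T x
  rwa [Finset.union_eq_left.2 h] at this

theorem wt_cont' (J : Ed → ℝ) (S : Finset Ed) : Continuous (fun η : Vx → TT => wt k J S η) := by
  unfold wt
  exact continuous_finset_prod _ fun e _ => (hk.cont _).comp
    ((continuous_apply e.1).sub (continuous_apply (tip e)))

theorem tpf_box (J : Ed → ℝ) {Λ Λ' : Finset Vx} (hΛ : Λ ⊆ Λ') (S : Finset Ed)
    (hS : ∀ e ∈ S, e.1 ∈ Λ ∧ tip e ∈ Λ) (x : Vx) (h0 : (0 : Vx) ∈ Λ) (hx : x ∈ Λ) :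
    tpf k J Λ S x = tpf k J Λ' S x := by
  have hw : ∀ η η' : Vx → TT, (∀ y ∈ Λ, η y = η' y) → wt k J S η = wt k J S η' := by
    intro η η' h
    unfold wt
    exact Finset.prod_congr rfl fun e he => by rw [h _ (hS e he).1, h _ (hS e he).2]
  unfold tpf
  rw [← XY.x Λ Λ' hΛ (fun η => ccos (η 0 - η x) * wt k J S η)
    ((ccos_cont.comp ((continuous_apply 0).sub (continuous_apply x))).mul (wt_cont' hk J S))
    (fun η η' h => by
      show ccos (η 0 - η x) * wt k J S η = ccos (η' 0 - η' x) * wt k J S η'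
      rw [h 0 h0, h x hx, hw η η' h]),
    ← XY.x Λ Λ' hΛ (fun η => wt k J S η) (wt_cont' hk J S) hw]

theorem tpf_le_one (J : Ed → ℝ) (Λ : Finset Vx) (S : Finset Ed) (x : Vx) :
    |tpf k J Λ S x| ≤ 1 := by
  have hw : Continuous (fun θ : Λ → TT => wt k J S (ext Λ θ)) := wt_cont hk Λ J S
  have hc : Continuous (fun θ : Λ → TT => ccos (ext Λ θ 0 - ext Λ θ x)) :=
    ccos_cont.comp (chi_cont Λ 0 x)
  have hnn : 0 ≤ ∫ θ, wt k J S (ext Λ θ) ∂(unif Λ) := integral_nonneg fun θ => (wt_pos hk J S _).le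
  unfold tpf
  rw [abs_div, abs_of_nonneg hnn]
  refine div_le_one_of_le₀ ?_ hnn
  rw [← Real.norm_eq_abs]
  refine (norm_integral_le_integral_norm _).trans ?_
  refine integral_mono (integrable_of_cont _ (hc.mul hw).norm) (integrable_of_cont _ hw) fun θ => ?_
  simp only []
  rw [norm_mul, Real.norm_eq_abs, Real.norm_eq_abs, abs_of_pos (wt_pos hk J S _)]
  exact mul_le_of_le_one_left (wt_pos hk J S _).le (ccos_le _)

theorem tpf_seq_mono (J : Ed → ℝ) {L L' : ℕ} (h : L ≤ L') {x : Vx} (hx : x ∈ box L) :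
    tpf k J (box L) (edges L) x ≤ tpf k J (box L') (edges L') x := by
  rw [tpf_box hk J (box_mono h) (edges L) (fun e he => mem_edges.1 he) x (zero_mem_box L) hx]
  exact tpf_mono_edges hk J (box L') (edges_mono h) x

theorem tpf_tendsto (β : ℝ) (ω : Ed → Bool) (x : Vx) :
    Tendsto (fun L : ℕ => tpf k (Jof β ω) (box L) (edges L) x) atTop (𝓝 (tpInf k β ω x)) := by
  obtain ⟨L0, hL0⟩ := mem_box_of x
  have hmono : Monotone (fun L : ℕ => tpf k (Jof β ω) (box (L + L0)) (edges (L + L0)) x) := by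
    intro L L' h
    exact tpf_seq_mono hk _ (by omega) (box_mono (by omega) hL0)
  have hbdd : BddAbove (range (fun L : ℕ => tpf k (Jof β ω) (box (L + L0)) (edges (L + L0)) x)) := by
    refine ⟨1, ?_⟩
    rintro _ ⟨L, rfl⟩
    exact (abs_le.1 (tpf_le_one hk _ _ _ _)).2
  have ht := tendsto_atTop_ciSup hmono hbdd
  have ht' := (tendsto_add_atTop_iff_nat (f := fun L : ℕ => tpf k (Jof β ω) (box L) (edges L) x) L0).1 ht
  exact tendsto_nhds_limUnder ⟨_, ht'⟩

theorem tpf_dep (L : ℕ) (x : Vx) (J J' : Ed → ℝ) (h : ∀ e ∈ edges L, J e = J' e) :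
    tpf k J (box L) (edges L) x = tpf k J' (box L) (edges L) x := by
  have : ∀ η, wt k J (edges L) η = wt k J' (edges L) η := by
    intro η
    unfold wt
    exact Finset.prod_congr rfl fun e he => by rw [h e he]
  unfold tpf
  simp_rw [this]

theorem tpf_meas (L : ℕ) (x : Vx) (β : ℝ) :
    Measurable (fun ω : Ed → Bool => tpf k (Jof β ω) (box L) (edges L) x) := by
  refine (HAux.meas_fin (edges L) _ ?_).1
  intro ω ω' h
  refine tpf_dep hk L x _ _ fun e he => ?_
  unfold Jof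
  rw [h e he]

theorem avg_tendsto (p : unitInterval) (β : ℝ) (x : Vx) :
    Tendsto (fun L : ℕ => ∫ ω, tpf k (Jof β ω) (box L) (edges L) x
      ∂(Measure.infinitePi (fun _ : Ed => bern p))) atTop (𝓝 (avg k p β x)) := by
  unfold avg
  refine tendsto_integral_of_dominated_convergence (fun _ => 1)
    (fun L => (tpf_meas hk L x β).aestronglyMeasurable) (integrable_const _)
    (fun L => Eventually.of_forall fun ω => ?_) (Eventually.of_forall fun ω => tpf_tendsto hk β ω x)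
  rw [Real.norm_eq_abs]
  exact tpf_le_one hk _ _ _ _


theorem avg_le {β β' : ℝ} {p p' : unitInterval}
    (hcond : ∀ (Λ : Finset Vx) (J : Ed → ℝ) (B : Finset Ed) (x u v : Vx),
      (1 - (p : ℝ)) * FFk k Λ J B x u v (fun _ => 1) + p * FFk k Λ J B x u v (k β) ≤
      (1 - (p' : ℝ)) * FFk k Λ J B x u v (fun _ => 1) + p' * FFk k Λ J B x u v (k β')) (x : Vx) :
    avg k p β x ≤ avg k p' β' x := by
  refine le_of_tendsto_of_tendsto' (avg_tendsto hk p β x) (avg_tendsto hk p' β' x) fun L => ?_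
  refine XY.h Ed (edges L) (fun J => tpf k J (box L) (edges L) x) (tpf_dep hk L x) β β' p p' ?_
  intro J e he
  have hself : ∀ (inst : DecidableEq Ed) (s : ℝ), @Function.update Ed (fun _ => ℝ) inst J e s e = s := by
    intro inst s; unfold Function.update; simp
  have hne : ∀ (inst : DecidableEq Ed) (s : ℝ), ∀ e' ≠ e,
      @Function.update Ed (fun _ => ℝ) inst J e s e' = J e' := by
    intro inst s e' he'; unfold Function.update; simp [he']
  set B0 : Finset Ed := (edges L).erase e with hB0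
  have h0 : ∀ (inst : DecidableEq Ed) (s : ℝ), tpf k (@Function.update Ed (fun _ => ℝ) inst J e s)
      (box L) (edges L) x = FFk k (box L) J B0 x e.1 (tip e) (k s) := by
    intro inst s
    have := tpf_erase hk J (@Function.update Ed (fun _ => ℝ) inst J e s) (box L) he (hne inst s) x
    rw [hself] at this
    exact this
  rw [h0, h0, h0, hk.nonpos 0 (lt_irrefl 0)]
  exact hcond _ _ _ _ _ _

theorem transfer {β β' : ℝ} (hβ : 0 < β) (hlt : β < β') : ∃ κ : ℝ, 0 ≤ κ ∧ κ < 1 ∧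
    ∀ p p' : unitInterval, κ * p ≤ p' → ∀ x, avg k p β x ≤ avg k p' β' x := by
  obtain ⟨κ, h0, h1, h⟩ := hk.strict β β' hβ hlt
  refine ⟨κ, h0, h1, fun p p' hp x => avg_le hk (fun Λ J B x u v => ?_) x⟩
  have hs := h Λ J B x u v
  have hm := FF_one_le hk Λ J B x u v β'
  have hp0 := p.2.1
  have h2 : (p : ℝ) * FFk k Λ J B x u v (k β) ≤ p * (FFk k Λ J B x u v (fun _ => 1) +
    κ * (FFk k Λ J B x u v (k β') - FFk k Λ J B x u v (fun _ => 1))) := mul_le_mul_of_nonneg_left hs hp0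
  have h3 : κ * p * (FFk k Λ J B x u v (k β') - FFk k Λ J B x u v (fun _ => 1)) ≤
    p' * (FFk k Λ J B x u v (k β') - FFk k Λ J B x u v (fun _ => 1)) :=
    mul_le_mul_of_nonneg_right hp (by linarith)
  nlinarith [h2, h3]

theorem mono_p {β : ℝ} {p p' : unitInterval} (hp : p ≤ p') (x : Vx) :
    avg k p β x ≤ avg k p' β x := by
  refine avg_le hk (fun Λ J B x u v => ?_) x
  have hm := FF_one_le hk Λ J B x u v β
  have hp' : (p : ℝ) ≤ p' := hp
  nlinarith [mul_le_mul_of_nonneg_right hp' (sub_nonneg.2 hm)]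

theorem mono_β {β β' : ℝ} (hβ : 0 < β) (hle : β ≤ β') (p : unitInterval) (x : Vx) :
    avg k p β x ≤ avg k p β' x := by
  rcases hle.eq_or_lt with rfl | hlt
  · exact le_rfl
  · obtain ⟨κ, h0, h1, h⟩ := transfer hk hβ hlt
    refine h p p ?_ x
    exact mul_le_of_le_one_left p.2.1 h1.le

omit hk in
theorem _root_.Pool.Agent.H890.XY.Poly.mono {f g : Vx → ℝ} (hf : Poly f) (h : ∀ x, f x ≤ g x) : Poly g := by
  obtain ⟨c, C, hc, hC, hf⟩ := hf
  exact ⟨c, C, hc, hC, fun x hx => (hf x hx).trans (h x)⟩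

theorem cont_betac : ContinuousOn (betac k) {p : unitInterval | 0 < (p : ℝ)} := by
  refine XY.c (fun p β => Poly (avg k p β)) ?_ ?_ ?_
  · intro p p' β hβ hp hP
    exact hP.mono fun x => mono_p hk hp x
  · intro p β β' hβ hle hP
    exact hP.mono fun x => mono_β hk hβ hle p x
  · intro β β' hβ hlt
    obtain ⟨κ, h0, h1, h⟩ := transfer hk hβ hlt
    exact ⟨κ, h0, h1, fun p p' hp hP => hP.mono fun x => h p p' hp x⟩

end Pool.Agent.H890.XY.Gen

namespace Pool.Agent.H890.XY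

open MeasureTheory Set Filter Topology Real
open Pool.Agent.H890.Tilt
open scoped ENNReal

/-- `β_c(p) = inf {β ≥ 0 : 𝔼_p[⟨cos(θ_0 - θ_x)⟩_{β,ω}] decays polynomially}`, `inf ∅ = ∞`. -/
noncomputable def betac0 (k : ℝ → TT → ℝ) (p : unitInterval) : ℝ≥0∞ :=
  sInf {b : ℝ≥0∞ | ∃ β : ℝ, 0 ≤ β ∧ b = ENNReal.ofReal β ∧ Poly (avg k p β)}

theorem betac0_eq (hz : TaskZ0) {k : ℝ → TT → ℝ} (h0 : k 0 = fun _ => 1) (p : unitInterval) :
    betac0 k p = betac k p := by
  unfold betac0 betac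
  congr 1
  ext b
  constructor
  · rintro ⟨β, hβ, hb, hP⟩
    rcases hβ.eq_or_lt with rfl | hlt
    · exfalso
      obtain ⟨c, C, hc, hC, hP⟩ := hP
      have h1 := hP (1, 0) (by simp)
      rw [hz k h0 p (1, 0) (by simp)] at h1
      have h2 : (0 : ℝ) < c * Real.sqrt ((((1 : ℤ), (0 : ℤ)).1 : ℝ) ^ 2 + (((1 : ℤ), (0 : ℤ)).2 : ℝ) ^ 2) ^ (-C) := by
        simp [hc]
      linarith
    · exact ⟨β, hlt, hb, hP⟩
  · rintro ⟨β, hβ, hb, hP⟩
    exact ⟨β, hβ.le, hb, hP⟩

end Pool.Agent.H890.XY
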