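import Pool.Agent.H890.XY.Stmts2

set_option autoImplicit false

/-! The elementary iteration (Gseq). -/

namespace Pool.Agent.H890.XY

theorem gseq : TaskGseq := by
  intro β β' hβ hββ'
  obtain ⟨n, hn⟩ := exists_nat_gt (β / (β' - β))
  have hd : 0 < β' - β := sub_pos.2 hββ'
  have hn0 : (0 : ℝ) < n := lt_of_le_of_lt (by positivity) hn
  obtain ⟨h, hh⟩ : ∃ h : ℝ, h = β / n := ⟨_, rfl⟩
  have hh0 : 0 < h := by rw [hh]; positivity
  have hle : β + h ≤ β' := by
    have : β / n ≤ β' - β := by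
      rw [div_le_iff₀ hn0]; rw [div_lt_iff₀ hd] at hn; linarith
    linarith
  have hnh : (n : ℝ) * h = β := by rw [hh]; field_simp
  obtain ⟨d, hdd⟩ : ∃ d : ℝ, d = Real.exp (-2 * β) / n := ⟨_, rfl⟩
  have hd' : 0 < d := by rw [hdd]; positivity
  refine ⟨1 / (1 + d), by positivity, by rw [div_lt_one (by positivity)]; linarith,
    fun G hm hG => ?_⟩
  have key : Real.exp (-2 * β) * (G β - G 0) ≤ n * (G (β + h) - G β) := by
    have e1 : G β - G 0 = ∑ i ∈ Finset.range n, (G (((i + 1 : ℕ) : ℝ) * h) - G ((i : ℝ) * h)) := by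
      rw [Finset.sum_range_sub (fun i : ℕ => G ((i : ℝ) * h)), hnh]
      simp
    rw [e1, Finset.mul_sum]
    calc _ ≤ ∑ i ∈ Finset.range n, (G (β + h) - G β) := Finset.sum_le_sum fun i hi => ?_
      _ = _ := by simp [mul_sub]
    have hi' : (i : ℝ) + 1 ≤ n := by exact_mod_cast Finset.mem_range.1 hi
    have hi0 : 0 ≤ (i : ℝ) * h := by positivity
    have hi1 : (i : ℝ) * h ≤ β := by rw [← hnh]; nlinarith
    have h1 := hG ((i : ℝ) * h) β h hi0 hi1 hh0.le
    have h2 : ((i + 1 : ℕ) : ℝ) * h = (i : ℝ) * h + h := by push_cast; ring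
    have h3 := hm ((i : ℝ) * h) ((i : ℝ) * h + h) hi0 (by linarith)
    rw [h2]
    refine le_trans (mul_le_mul_of_nonneg_right (Real.exp_le_exp.2 ?_) (sub_nonneg.2 h3)) h1
    linarith
  have h4 := hm (β + h) β' (by linarith) hle
  have h5 : d * (G β - G 0) ≤ G β' - G β := by
    rw [hdd, div_mul_eq_mul_div, div_le_iff₀ hn0]
    nlinarith
  have h6 : (1 + d) * (G β - G 0) ≤ G β' - G 0 := by linarith
  have h7 : G β - G 0 ≤ 1 / (1 + d) * (G β' - G 0) := by
    rw [one_div, ← div_eq_inv_mul, le_div_iff₀ (by positivity)]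
    linarith
  linarith

end Pool.Agent.H890.XY
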