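import Pool.Agent.H890.XY.G

set_option autoImplicit false
set_option linter.unusedSectionVars false
set_option linter.unusedVariables false
set_option linter.deprecated false

/-! The one-edge inequality for the Villain model. -/

namespace Pool.Agent.H890.XY

open MeasureTheory Set Filter Topology Real
open scoped ENNReal

/-- The sine on the circle. -/
noncomputable def csin : TT → ℝ := Real.sin_periodic.lift

theorem ccos_coe (t : ℝ) : ccos (t : TT) = Real.cos t := rfl
theorem csin_coe (t : ℝ) : csin (t : TT) = Real.sin t := rfl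
theorem vil_coe (β t : ℝ) : vil β (t : TT) = vR β t := rfl

theorem lift_cont {f : ℝ → ℝ} (h : Function.Periodic f (2 * π)) (hf : Continuous f) :
    Continuous (h.lift : TT → ℝ) := by
  have hq : Topology.IsQuotientMap (QuotientAddGroup.mk : ℝ → ℝ ⧸ AddSubgroup.zmultiples (2 * π)) :=
    QuotientAddGroup.isQuotientMap_mk _
  exact hq.continuous_iff.2 hf

theorem ccos_cont : Continuous ccos := lift_cont _ Real.continuous_cos
theorem csin_cont : Continuous csin := lift_cont _ Real.continuous_sin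

theorem ccos_le (t : TT) : |ccos t| ≤ 1 := by
  induction t using QuotientAddGroup.induction_on with
  | H x => exact Real.abs_cos_le_one x

theorem ccos_diff (x y : TT) : ccos (x + y) - ccos (x - y) = -2 * (csin x * csin y) := by
  induction x using QuotientAddGroup.induction_on with
  | H x =>
  induction y using QuotientAddGroup.induction_on with
  | H y =>
    show ccos (((x + y : ℝ)) : TT) - ccos (((x - y : ℝ)) : TT) = -2 * (csin (x : TT) * csin (y : TT))
    rw [ccos_coe, ccos_coe, csin_coe, csin_coe, Real.cos_add, Real.cos_sub]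
    ring

theorem vil_prod (h2 : TaskV2) {β : ℝ} (hβ : 0 < β) (x y : TT) :
    vil β (x + y) * vil β (x - y) =
      vil (2 * β) x * vil (2 * β) y + vil (2 * β) (x + (π : ℝ)) * vil (2 * β) (y + (π : ℝ)) := by
  induction x using QuotientAddGroup.induction_on with
  | H x =>
  induction y using QuotientAddGroup.induction_on with
  | H y =>
    exact h2 β hβ x y

theorem vil_pos (h1 : TaskV1) {β : ℝ} (hβ : 0 < β) (x : TT) : 0 < vil β x := by
  induction x using QuotientAddGroup.induction_on with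
  | H x => exact (h1 β hβ).2.1 x

theorem kV_cont (h1 : TaskV1) (β : ℝ) : Continuous (kV β) := by
  unfold kV
  by_cases h : 0 < β
  · simp only [h, if_true]; exact (h1 β h).2.2.2
  · simp only [h, if_false]; exact continuous_const

theorem kV_pos (h1 : TaskV1) (β : ℝ) (x : TT) : 0 < kV β x := by
  unfold kV
  by_cases h : 0 < β
  · simp only [h, if_true]; exact vil_pos h1 h x
  · simp only [h, if_false]; exact one_pos

section ext
variable (Λ : Finset Vx)

theorem ext_add (a b : Λ → TT) (x : Vx) : ext Λ (a + b) x = ext Λ a x + ext Λ b x := by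
  unfold ext; split_ifs <;> simp

theorem ext_sub (a b : Λ → TT) (x : Vx) : ext Λ (a - b) x = ext Λ a x - ext Λ b x := by
  unfold ext; split_ifs <;> simp

theorem ext_cont (x : Vx) : Continuous fun θ : Λ → TT => ext Λ θ x := by
  unfold ext
  by_cases h : x ∈ Λ
  · simp only [h, dif_pos]; exact continuous_apply _
  · simp only [h, dif_neg, not_false_eq_true]; exact continuous_const

/-- spin differences -/
noncomputable def chi (u v : Vx) (θ : Λ → TT) : TT := ext Λ θ u - ext Λ θ v

theorem chi_add (u v : Vx) (a b : Λ → TT) : chi Λ u v (a + b) = chi Λ u v a + chi Λ u v b := by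
  unfold chi; rw [ext_add, ext_add]; abel

theorem chi_sub (u v : Vx) (a b : Λ → TT) : chi Λ u v (a - b) = chi Λ u v a - chi Λ u v b := by
  unfold chi; rw [ext_sub, ext_sub]; abel

theorem chi_cont (u v : Vx) : Continuous (chi Λ u v) := (ext_cont Λ u).sub (ext_cont Λ v)

/-- Ginibre's duplication. -/
theorem gin {f w ws Bf : (Λ → TT) → ℝ} (hf : Continuous f) (hw : Continuous w)
    (hws : Continuous ws) (hB : Continuous Bf)
    (h : FK (fun a b => (f (a + b) - f (a - b)) *
      ((w (a + b) * ws (a - b) - ws (a + b) * w (a - b)) * (Bf (a + b) * Bf (a - b))))) :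
    (∫ θ, f θ * (ws θ * Bf θ) ∂unif Λ) * (∫ θ, w θ * Bf θ ∂unif Λ) ≤
      (∫ θ, f θ * (w θ * Bf θ) ∂unif Λ) * (∫ θ, ws θ * Bf θ ∂unif Λ) := by
  have c1 : ∀ g : (Λ → TT) → ℝ, Continuous g →
      Continuous (fun z : (Λ → TT) × (Λ → TT) => g z.1) := fun g hg => hg.comp continuous_fst
  have c2 : ∀ g : (Λ → TT) → ℝ, Continuous g →
      Continuous (fun z : (Λ → TT) × (Λ → TT) => g z.2) := fun g hg => hg.comp continuous_snd
  have key : 0 ≤ ∫ z : (Λ → TT) × (Λ → TT), (f z.1 - f z.2) *
      ((w z.1 * ws z.2 - ws z.1 * w z.2) * (Bf z.1 * Bf z.2)) ∂((unif Λ).prod (unif Λ)) := by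
    rw [cv_integral Λ (H := fun z => (f z.1 - f z.2) *
      ((w z.1 * ws z.2 - ws z.1 * w z.2) * (Bf z.1 * Bf z.2)))]
    · exact h.integral_nonneg (unif Λ)
    · exact ((c1 f hf).sub (c2 f hf)).mul
        ((((c1 w hw).mul (c2 ws hws)).sub ((c1 ws hws).mul (c2 w hw))).mul ((c1 Bf hB).mul (c2 Bf hB)))
  have e1 : ∀ z : (Λ → TT) × (Λ → TT), (f z.1 - f z.2) *
      ((w z.1 * ws z.2 - ws z.1 * w z.2) * (Bf z.1 * Bf z.2)) =
      (f z.1 * (w z.1 * Bf z.1)) * (ws z.2 * Bf z.2) - (f z.1 * (ws z.1 * Bf z.1)) * (w z.2 * Bf z.2)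
      - (w z.1 * Bf z.1) * (f z.2 * (ws z.2 * Bf z.2)) + (ws z.1 * Bf z.1) * (f z.2 * (w z.2 * Bf z.2)) := by
    intro z; ring
  simp_rw [e1] at key
  have hwB := hw.mul hB
  have hwsB := hws.mul hB
  have hfw := hf.mul hwB
  have hfws := hf.mul hwsB
  rw [integral_add, integral_sub, integral_sub] at key
  · have i1 := integral_prod_mul (μ := unif Λ) (ν := unif Λ) (fun θ => f θ * (w θ * Bf θ)) (fun θ => ws θ * Bf θ)
    have i2 := integral_prod_mul (μ := unif Λ) (ν := unif Λ) (fun θ => f θ * (ws θ * Bf θ)) (fun θ => w θ * Bf θ)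
    have i3 := integral_prod_mul (μ := unif Λ) (ν := unif Λ) (fun θ => w θ * Bf θ) (fun θ => f θ * (ws θ * Bf θ))
    have i4 := integral_prod_mul (μ := unif Λ) (ν := unif Λ) (fun θ => ws θ * Bf θ) (fun θ => f θ * (w θ * Bf θ))
    rw [i1, i2, i3, i4] at key
    linarith
  · exact integrable_of_cont _ ((c1 _ hfw).mul (c2 _ hwsB))
  · exact integrable_of_cont _ ((c1 _ hfws).mul (c2 _ hwB))
  · exact integrable_of_cont _ (((c1 _ hfw).mul (c2 _ hwsB)).sub ((c1 _ hfws).mul (c2 _ hwB)))
  · exact integrable_of_cont _ ((c1 _ hwB).mul (c2 _ hfws))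
  · exact integrable_of_cont _ ((((c1 _ hfw).mul (c2 _ hwsB)).sub ((c1 _ hfws).mul (c2 _ hwB))).sub
      ((c1 _ hwB).mul (c2 _ hfws)))
  · exact integrable_of_cont _ ((c1 _ hwsB).mul (c2 _ hfw))

theorem FK_kV (h1 : TaskV1) (h2 : TaskV2) (j : ℝ) (u v : Vx) :
    FK (fun a b : Λ → TT => kV j (chi Λ u v (a + b)) * kV j (chi Λ u v (a - b))) := by
  by_cases hj : 0 < j
  · have hc : Continuous (vil (2 * j)) := (h1 (2 * j) (by positivity)).2.2.2
    have hs : Continuous (fun t : TT => t + ((π : ℝ) : TT)) := continuous_id.add continuous_const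
    refine FK.congr (FK.add (FK.single (hc.comp (chi_cont Λ u v)))
      (FK.single (hc.comp (hs.comp (chi_cont Λ u v))))) ?_
    intro a b
    simp only [kV, hj, if_true, chi_add, chi_sub, Function.comp]
    exact (vil_prod h2 hj _ _).symm
  · refine FK.congr FK.one ?_
    intro a b
    simp only [kV, hj, if_false]; norm_num

theorem wt_cont (h1 : TaskV1) (J : Ed → ℝ) (B : Finset Ed) :
    Continuous (fun θ : Λ → TT => wt kV J B (ext Λ θ)) := by
  unfold wt
  exact continuous_finset_prod _ fun e _ => (kV_cont h1 _).comp (chi_cont Λ e.1 (tip e))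

theorem wt_pos (h1 : TaskV1) (J : Ed → ℝ) (B : Finset Ed) (η : Vx → TT) : 0 < wt kV J B η :=
  Finset.prod_pos fun e _ => kV_pos h1 _ _

theorem FK_wt (h1 : TaskV1) (h2 : TaskV2) (J : Ed → ℝ) (B : Finset Ed) :
    FK (fun a b : Λ → TT => wt kV J B (ext Λ (a + b)) * wt kV J B (ext Λ (a - b))) := by
  have h : FK (fun a b : Λ → TT => ∏ e ∈ B, (kV (J e) (chi Λ e.1 (tip e) (a + b)) *
      kV (J e) (chi Λ e.1 (tip e) (a - b)))) :=
    FK.prod B fun e _ => FK_kV Λ h1 h2 (J e) e.1 (tip e)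
  refine h.congr fun a b => ?_
  rw [Finset.prod_mul_distrib]
  rfl

end ext

theorem vil_shift (h2 : TaskV2) {β : ℝ} (hβ : 0 < β) (u v h : TT) :
    vil β (u + v) * (vil β (u - v - (h + h)) + vil β (u - v + (h + h))) -
      (vil β (u + v - (h + h)) + vil β (u + v + (h + h))) * vil β (u - v) =
    -((vil (2 * β) (u + h) - vil (2 * β) (u - h)) * (vil (2 * β) (v + h) - vil (2 * β) (v - h)) +
      (vil (2 * β) (u + h + (π : ℝ)) - vil (2 * β) (u - h + (π : ℝ))) *
        (vil (2 * β) (v + h + (π : ℝ)) - vil (2 * β) (v - h + (π : ℝ)))) := by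
  have e1 := vil_prod h2 hβ (u - h) (v + h)
  have e2 := vil_prod h2 hβ (u + h) (v - h)
  have e3 := vil_prod h2 hβ (u - h) (v - h)
  have e4 := vil_prod h2 hβ (u + h) (v + h)
  rw [show (u - h) + (v + h) = u + v by abel, show (u - h) - (v + h) = u - v - (h + h) by abel] at e1
  rw [show (u + h) + (v - h) = u + v by abel, show (u + h) - (v - h) = u - v + (h + h) by abel] at e2
  rw [show (u - h) + (v - h) = u + v - (h + h) by abel, show (u - h) - (v - h) = u - v by abel] at e3
  rw [show (u + h) + (v + h) = u + v + (h + h) by abel, show (u + h) - (v + h) = u - v by abel] at e4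
  linarith

/-- The `P` inequality. -/
theorem Pineq (h1 : TaskV1) (h2 : TaskV2) (Λ : Finset Vx) (J : Ed → ℝ) (B : Finset Ed) (x u v : Vx)
    {β : ℝ} (hβ : 0 < β) (s : ℝ) :
    (∫ θ, ccos (chi Λ 0 x θ) * ((vil β (chi Λ u v θ - (s : ℝ)) + vil β (chi Λ u v θ + (s : ℝ))) *
      wt kV J B (ext Λ θ)) ∂unif Λ) * (∫ θ, vil β (chi Λ u v θ) * wt kV J B (ext Λ θ) ∂unif Λ) ≤
    (∫ θ, ccos (chi Λ 0 x θ) * (vil β (chi Λ u v θ) * wt kV J B (ext Λ θ)) ∂unif Λ) *
      (∫ θ, (vil β (chi Λ u v θ - (s : ℝ)) + vil β (chi Λ u v θ + (s : ℝ))) *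
        wt kV J B (ext Λ θ) ∂unif Λ) := by
  have hvc : Continuous (vil β) := (h1 β hβ).2.2.2
  have hv2 : Continuous (vil (2 * β)) := (h1 (2 * β) (by positivity)).2.2.2
  have hchi := chi_cont Λ u v
  have hsub : ∀ c : TT, Continuous (fun t : TT => t - c) := fun c => continuous_id.sub continuous_const
  have hadd : ∀ c : TT, Continuous (fun t : TT => t + c) := fun c => continuous_id.add continuous_const
  refine gin Λ (f := fun θ => ccos (chi Λ 0 x θ)) (w := fun θ => vil β (chi Λ u v θ))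
    (ws := fun θ => vil β (chi Λ u v θ - (s : ℝ)) + vil β (chi Λ u v θ + (s : ℝ)))
    (Bf := fun θ => wt kV J B (ext Λ θ)) (ccos_cont.comp (chi_cont Λ 0 x)) (hvc.comp hchi)
    ((hvc.comp ((hsub _).comp hchi)).add (hvc.comp ((hadd _).comp hchi))) (wt_cont Λ h1 J B) ?_
  set h : TT := ((s / 2 : ℝ) : TT) with hh
  have hs : ((s : ℝ) : TT) = h + h := by
    rw [hh, ← AddCircle.coe_add]; congr 1; ring
  have hcs : Continuous (fun θ : Λ → TT => csin (chi Λ 0 x θ)) := csin_cont.comp (chi_cont Λ 0 x)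
  have k0 : Continuous (fun θ : Λ → TT => csin (chi Λ 0 x θ) *
      (vil (2 * β) (chi Λ u v θ + h) - vil (2 * β) (chi Λ u v θ - h))) :=
    hcs.mul ((hv2.comp ((hadd _).comp hchi)).sub (hv2.comp ((hsub _).comp hchi)))
  have k1 : Continuous (fun θ : Λ → TT => csin (chi Λ 0 x θ) *
      (vil (2 * β) (chi Λ u v θ + h + (π : ℝ)) - vil (2 * β) (chi Λ u v θ - h + (π : ℝ)))) :=
    hcs.mul ((hv2.comp ((hadd _).comp ((hadd _).comp hchi))).sub
      (hv2.comp ((hadd _).comp ((hsub _).comp hchi))))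
  refine FK.congr (((FK.single k0).add (FK.single k1)).smul (c := 2) (by norm_num) |>.mul
    (FK_wt Λ h1 h2 J B)) ?_
  intro a b
  simp only [chi_add, chi_sub, hs]
  rw [ccos_diff, vil_shift h2 hβ]
  ring

end Pool.Agent.H890.XY
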