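import Pool.Agent.H890.XY.P

set_option autoImplicit false
set_option linter.unusedSectionVars false
set_option linter.unusedVariables false
set_option linter.deprecated false

/-! The strict one-edge inequality for the Villain model. -/

namespace Pool.Agent.H890.XY

open MeasureTheory Set Filter Topology Real
open scoped ENNReal

theorem bdd_of_cont {Y : Type} [TopologicalSpace Y] [CompactSpace Y] {g : Y → ℝ}
    (hg : Continuous g) : ∃ C, 0 < C ∧ ∀ y, |g y| ≤ C := by
  obtain ⟨C, hC⟩ := (isCompact_univ (X := Y)).exists_bound_of_continuousOn hg.continuousOn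
  refine ⟨max C 1, by positivity, fun y => ?_⟩
  exact (hC y (mem_univ y)).trans (le_max_left _ _)

section
variable (Λ : Finset Vx) (J : Ed → ℝ) (B : Finset Ed) (x u v : Vx)

/-- numerator -/
noncomputable def NN (g : TT → ℝ) : ℝ :=
  ∫ θ, ccos (chi Λ 0 x θ) * (g (chi Λ u v θ) * wt kV J B (ext Λ θ)) ∂unif Λ

/-- denominator -/
noncomputable def ZZ (g : TT → ℝ) : ℝ :=
  ∫ θ, g (chi Λ u v θ) * wt kV J B (ext Λ θ) ∂unif Λ

theorem NZ_lin (h1 : TaskV1) (a b : ℝ) {g : TT → ℝ} (hg : Continuous g) :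
    a * ZZ Λ J B u v g - b * NN Λ J B x u v g =
      ∫ θ, ((a - b * ccos (chi Λ 0 x θ)) * wt kV J B (ext Λ θ)) * g (chi Λ u v θ) ∂unif Λ := by
  have hw := wt_cont Λ h1 J B
  have hc : Continuous (fun θ : Λ → TT => ccos (chi Λ 0 x θ)) := ccos_cont.comp (chi_cont Λ 0 x)
  have hg' : Continuous (fun θ : Λ → TT => g (chi Λ u v θ)) := hg.comp (chi_cont Λ u v)
  unfold NN ZZ
  rw [← integral_const_mul, ← integral_const_mul, ← integral_sub]
  · refine integral_congr_ae (Eventually.of_forall fun θ => ?_)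
    simp only []
    ring
  · exact integrable_of_cont _ (continuous_const.mul (hg'.mul hw))
  · exact integrable_of_cont _ (continuous_const.mul (hc.mul (hg'.mul hw)))

theorem Pint (h1 : TaskV1) (h2 : TaskV2) {β : ℝ} (hβ : 0 < β) (ρ : ℝ → ℝ) (hρ : ∀ s, 0 ≤ ρ s)
    (hρi : Integrable ρ) (W : TT → ℝ) (hW : Continuous W)
    (hWρ : ∀ t, W t = ∫ s : ℝ, ρ s * (vil β (t - (s : ℝ)) + vil β (t + (s : ℝ)))) :
    NN Λ J B x u v W * ZZ Λ J B u v (vil β) ≤ NN Λ J B x u v (vil β) * ZZ Λ J B u v W := by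
  have hvc : Continuous (vil β) := (h1 β hβ).2.2.2
  have hw := wt_cont Λ h1 J B
  have hc : Continuous (fun θ : Λ → TT => ccos (chi Λ 0 x θ)) := ccos_cont.comp (chi_cont Λ 0 x)
  have hchi := chi_cont Λ u v
  set a := NN Λ J B x u v (vil β) with ha
  set b := ZZ Λ J B u v (vil β) with hb
  set H : (Λ → TT) → ℝ := fun θ => (a - b * ccos (chi Λ 0 x θ)) * wt kV J B (ext Λ θ) with hH
  have hHc : Continuous H := (continuous_const.sub (continuous_const.mul hc)).mul hw
  have hcs : ∀ s : ℝ, Continuous (fun t : TT => vil β (t - (s : ℝ)) + vil β (t + (s : ℝ))) := fun s =>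
    (hvc.comp (continuous_id.sub continuous_const)).add (hvc.comp (continuous_id.add continuous_const))
  have hP : ∀ s : ℝ, 0 ≤ ∫ θ, H θ * (vil β (chi Λ u v θ - (s : ℝ)) + vil β (chi Λ u v θ + (s : ℝ)))
      ∂unif Λ := by
    intro s
    have h := Pineq h1 h2 Λ J B x u v hβ s
    have h' := NZ_lin Λ J B x u v h1 a b (hcs s)
    have h'' : NN Λ J B x u v (fun t => vil β (t - (s : ℝ)) + vil β (t + (s : ℝ))) * b ≤
        a * ZZ Λ J B u v (fun t => vil β (t - (s : ℝ)) + vil β (t + (s : ℝ))) := h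
    have h3 : 0 ≤ a * ZZ Λ J B u v (fun t => vil β (t - (s : ℝ)) + vil β (t + (s : ℝ))) -
      b * NN Λ J B x u v (fun t => vil β (t - (s : ℝ)) + vil β (t + (s : ℝ))) := by linarith
    rw [h'] at h3
    exact h3
  have hlin := NZ_lin Λ J B x u v h1 a b hW
  have key : 0 ≤ ∫ θ, H θ * W (chi Λ u v θ) ∂unif Λ := by
    have e1 : ∀ θ, H θ * W (chi Λ u v θ) = ∫ s : ℝ, H θ * (ρ s *
        (vil β (chi Λ u v θ - (s : ℝ)) + vil β (chi Λ u v θ + (s : ℝ)))) := by
      intro θ
      rw [integral_const_mul, ← hWρ]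
    simp_rw [e1]
    obtain ⟨CH, hCH0, hCH⟩ := bdd_of_cont hHc
    obtain ⟨Cv, hCv0, hCv⟩ := bdd_of_cont hvc
    rw [integral_integral_swap]
    · refine integral_nonneg fun s => ?_
      have e2 : ∀ θ, H θ * (ρ s * (vil β (chi Λ u v θ - (s : ℝ)) + vil β (chi Λ u v θ + (s : ℝ)))) =
          ρ s * (H θ * (vil β (chi Λ u v θ - (s : ℝ)) + vil β (chi Λ u v θ + (s : ℝ)))) := by
        intro θ; ring
      simp only [Pi.zero_apply]
      simp_rw [e2]
      rw [integral_const_mul]
      exact mul_nonneg (hρ s) (hP s)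
    · have : BorelSpace ((Λ → TT) × ℝ) := Prod.borelSpace
      have hcoe : Continuous (fun z : (Λ → TT) × ℝ => ((z.2 : ℝ) : TT)) :=
        (AddCircle.continuous_mk' (2 * π)).comp continuous_snd
      have hchi1 : Continuous (fun z : (Λ → TT) × ℝ => chi Λ u v z.1) := hchi.comp continuous_fst
      have hg : Integrable (fun z : (Λ → TT) × ℝ => ρ z.2) ((unif Λ).prod volume) :=
        hρi.comp_snd (unif Λ)
      have hf : Continuous (fun z : (Λ → TT) × ℝ => H z.1 *
          (vil β (chi Λ u v z.1 - (z.2 : ℝ)) + vil β (chi Λ u v z.1 + (z.2 : ℝ)))) :=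
        (hHc.comp continuous_fst).mul ((hvc.comp (hchi1.sub hcoe)).add (hvc.comp (hchi1.add hcoe)))
      have hI := hg.bdd_mul (c := CH * (Cv + Cv)) hf.aestronglyMeasurable (Eventually.of_forall fun z => by
        rw [Real.norm_eq_abs, abs_mul]
        refine mul_le_mul (hCH _) ((abs_add_le _ _).trans (add_le_add (hCv _) (hCv _))) (abs_nonneg _) hCH0.le)
      refine hI.congr (Eventually.of_forall fun z => ?_)
      simp only [Function.uncurry]
      ring
  have h4 : a * ZZ Λ J B u v W - b * NN Λ J B x u v W = ∫ θ, H θ * W (chi Λ u v θ) ∂unif Λ := hlin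
  linarith

theorem ZZ_pos (h1 : TaskV1) {g : TT → ℝ} (hg : Continuous g) (hg0 : ∀ t, 0 < g t) :
    0 < ZZ Λ J B u v g := by
  have hw := wt_cont Λ h1 J B
  have hcont : Continuous (fun θ : Λ → TT => g (chi Λ u v θ) * wt kV J B (ext Λ θ)) :=
    (hg.comp (chi_cont Λ u v)).mul hw
  have hpos : ∀ θ : Λ → TT, 0 < g (chi Λ u v θ) * wt kV J B (ext Λ θ) := fun θ =>
    mul_pos (hg0 _) (wt_pos h1 J B _)
  unfold ZZ
  rw [integral_pos_iff_support_of_nonneg (fun θ => (hpos θ).le) (integrable_of_cont _ hcont)]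
  have : Function.support (fun θ : Λ → TT => g (chi Λ u v θ) * wt kV J B (ext Λ θ)) = univ := by
    ext θ; simpa using (hpos θ).ne'
  rw [this]
  simp

theorem ZZ_mono (h1 : TaskV1) {g g' : TT → ℝ} (hg : Continuous g) (hg' : Continuous g')
    (h : ∀ t, g t ≤ g' t) : ZZ Λ J B u v g ≤ ZZ Λ J B u v g' := by
  have hw := wt_cont Λ h1 J B
  unfold ZZ
  refine integral_mono (integrable_of_cont _ ((hg.comp (chi_cont Λ u v)).mul hw))
    (integrable_of_cont _ ((hg'.comp (chi_cont Λ u v)).mul hw)) fun θ => ?_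
  exact mul_le_mul_of_nonneg_right (h _) (wt_pos h1 J B _).le

theorem ZZ_affine (h1 : TaskV1) {g : TT → ℝ} (hg : Continuous g) (c d : ℝ) :
    ZZ Λ J B u v (fun t => c * g t + d) = c * ZZ Λ J B u v g + d * ZZ Λ J B u v (fun _ => 1) := by
  have hw := wt_cont Λ h1 J B
  have hg' : Continuous (fun θ : Λ → TT => g (chi Λ u v θ)) := hg.comp (chi_cont Λ u v)
  unfold ZZ
  rw [← integral_const_mul, ← integral_const_mul, ← integral_add]
  · refine integral_congr_ae (Eventually.of_forall fun θ => ?_)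
    simp only []
    ring
  · exact integrable_of_cont _ (continuous_const.mul (hg'.mul hw))
  · exact integrable_of_cont _ (continuous_const.mul (continuous_const.mul hw))

theorem NN_affine (h1 : TaskV1) {g : TT → ℝ} (hg : Continuous g) (c d : ℝ) :
    NN Λ J B x u v (fun t => c * g t + d) = c * NN Λ J B x u v g + d * NN Λ J B x u v (fun _ => 1) := by
  have hw := wt_cont Λ h1 J B
  have hg' : Continuous (fun θ : Λ → TT => g (chi Λ u v θ)) := hg.comp (chi_cont Λ u v)
  have hc : Continuous (fun θ : Λ → TT => ccos (chi Λ 0 x θ)) := ccos_cont.comp (chi_cont Λ 0 x)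
  unfold NN
  rw [← integral_const_mul, ← integral_const_mul, ← integral_add]
  · refine integral_congr_ae (Eventually.of_forall fun θ => ?_)
    simp only []
    ring
  · exact integrable_of_cont _ (continuous_const.mul (hc.mul (hg'.mul hw)))
  · exact integrable_of_cont _ (continuous_const.mul (hc.mul (continuous_const.mul hw)))

end

/-- mass of the Villain weight over a period -/
noncomputable def IV (β : ℝ) : ℝ := ∫ s in (-π)..π, vR β s

theorem IV_pos (h1 : TaskV1) {β : ℝ} (hβ : 0 < β) : 0 < IV β := by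
  unfold IV
  refine intervalIntegral.intervalIntegral_pos_of_pos_on ((h1 β hβ).1.intervalIntegrable _ _)
    (fun s _ => (h1 β hβ).2.1 s) (by linarith [Real.pi_pos])

theorem per_int (h1 : TaskV1) {β : ℝ} (hβ : 0 < β) (t : TT) :
    ∫ s : ℝ, (Icc (-π) π).indicator (fun _ => (1 : ℝ)) s *
      (vil β (t - (s : ℝ)) + vil β (t + (s : ℝ))) = 2 * IV β := by
  induction t using QuotientAddGroup.induction_on with
  | H t =>
    have e0 : ∀ s : ℝ, vil β (((t : ℝ) : TT) - (s : ℝ)) = vR β (t - s) := fun s => rfl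
    have e1 : ∀ s : ℝ, vil β (((t : ℝ) : TT) + (s : ℝ)) = vR β (t + s) := fun s => rfl
    have hc := (h1 β hβ).1
    have e2 : ∀ s : ℝ, (Icc (-π) π).indicator (fun _ => (1 : ℝ)) s *
      (vil β (((t : ℝ) : TT) - (s : ℝ)) + vil β (((t : ℝ) : TT) + (s : ℝ))) =
      (Icc (-π) π).indicator (fun s => vR β (t - s) + vR β (t + s)) s := by
      intro s
      rw [e0, e1]
      by_cases hs : s ∈ Icc (-π) π
      · simp [hs]
      · simp [hs]
    change ∫ s : ℝ, (Icc (-π) π).indicator (fun _ => (1 : ℝ)) s *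
      (vil β (((t : ℝ) : TT) - (s : ℝ)) + vil β (((t : ℝ) : TT) + (s : ℝ))) = 2 * IV β
    simp_rw [e2]
    rw [integral_indicator measurableSet_Icc, integral_Icc_eq_integral_Ioc,
      ← intervalIntegral.integral_of_le (by linarith [Real.pi_pos]),
      intervalIntegral.integral_add]
    · rw [intervalIntegral.integral_comp_sub_left (fun s => vR β s) t,
        intervalIntegral.integral_comp_add_left (fun s => vR β s) t]
      have p1 := (vR_periodic β).intervalIntegral_add_eq (t - π) (-π)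
      have p2 := (vR_periodic β).intervalIntegral_add_eq (t + -π) (-π)
      rw [show t - π + 2 * π = t - -π by ring, show -π + 2 * π = π by ring] at p1
      rw [show t + -π + 2 * π = t + π by ring, show -π + 2 * π = π by ring] at p2
      unfold IV
      rw [p1, p2]; ring
    · exact (hc.comp (continuous_const.sub continuous_id)).intervalIntegrable _ _
    · exact (hc.comp (continuous_const.add continuous_id)).intervalIntegrable _ _

/-- `M0`. -/
theorem M0 (h1 : TaskV1) (h2 : TaskV2) (Λ : Finset Vx) (J : Ed → ℝ) (B : Finset Ed) (x u v : Vx)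
    {β : ℝ} (hβ : 0 < β) :
    NN Λ J B x u v (fun _ => 1) * ZZ Λ J B u v (vil β) ≤
      NN Λ J B x u v (vil β) * ZZ Λ J B u v (fun _ => 1) := by
  have hvc : Continuous (vil β) := (h1 β hβ).2.2.2
  have hI := IV_pos h1 hβ
  have h := Pint Λ J B x u v h1 h2 hβ ((Icc (-π) π).indicator (fun _ => (1 : ℝ)))
    (fun s => indicator_nonneg (fun _ _ => zero_le_one) s)
    ((integrable_indicator_iff measurableSet_Icc).2 (integrableOn_const (by simp)))
    (fun t => 0 * vil β t + 2 * IV β) (by fun_prop) (fun t => by rw [per_int h1 hβ]; ring)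
  rw [NN_affine Λ J B x u v h1 hvc, ZZ_affine Λ J B u v h1 hvc] at h
  have h' : (2 * IV β) * (NN Λ J B x u v (fun _ => 1) * ZZ Λ J B u v (vil β)) ≤
      (2 * IV β) * (NN Λ J B x u v (vil β) * ZZ Λ J B u v (fun _ => 1)) := by nlinarith [h]
  exact le_of_mul_le_mul_left h' (by positivity)

/-- decomposition of the Villain weight -/
theorem vdecomp (h1 : TaskV1) (h3 : TaskV3) {β β' : ℝ} (hβ : 0 < β) (hββ' : β < β') :
    ∃ (ρ : ℝ → ℝ) (c0 : ℝ), 0 < c0 ∧ (∀ s, 0 ≤ ρ s) ∧ Integrable ρ ∧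
      ∀ t : TT, vil β t - c0 = ∫ s : ℝ, ρ s * (vil β' (t - (s : ℝ)) + vil β' (t + (s : ℝ))) := by
  have hβ' : 0 < β' := hβ.trans hββ'
  obtain ⟨C, β1, hC, hβ1, h3⟩ := h3 β β' hβ hββ'
  have hI := IV_pos h1 hβ'
  set γ : ℝ → ℝ := fun s => Real.exp (-β1 * s ^ 2 / 2) with hγ
  set m : ℝ := Real.exp (-β1 * π ^ 2 / 2) with hm
  have hm0 : 0 < m := Real.exp_pos _
  set χ : ℝ → ℝ := (Icc (-π) π).indicator (fun _ => (1 : ℝ)) with hχ
  have hγi : Integrable γ := by
    have := integrable_exp_neg_mul_sq (b := β1 / 2) (by positivity)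
    refine this.congr (Eventually.of_forall fun s => ?_)
    simp only [hγ]; congr 1; ring
  have hχi : Integrable χ :=
    (integrable_indicator_iff measurableSet_Icc).2 (integrableOn_const (by simp))
  refine ⟨fun s => C / 2 * (γ s - m * χ s), C * m * IV β', by positivity, ?_, ?_, ?_⟩
  · intro s
    refine mul_nonneg (by positivity) ?_
    by_cases hs : s ∈ Icc (-π) π
    · have : χ s = 1 := by simp [hχ, hs]
      rw [this]
      have h5 : m ≤ γ s := by
        simp only [hγ, hm]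
        refine Real.exp_le_exp.2 ?_
        have : s ^ 2 ≤ π ^ 2 := by nlinarith [hs.1, hs.2]
        nlinarith
      linarith
    · have : χ s = 0 := by simp [hχ, hs]
      rw [this]
      have := Real.exp_pos (-β1 * s ^ 2 / 2)
      simp only [hγ]; linarith
  · exact (hγi.sub (hχi.const_mul m)).const_mul _
  · intro t
    have hper := per_int h1 hβ' t
    obtain ⟨Cv, hCv0, hCv⟩ := bdd_of_cont (h1 β' hβ').2.2.2
    have hvc : Continuous (vil β') := (h1 β' hβ').2.2.2
    have hcoe : Continuous (fun s : ℝ => (s : TT)) := AddCircle.continuous_mk' (2 * π)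
    have hcs : Continuous (fun s : ℝ => vil β' (t - (s : ℝ)) + vil β' (t + (s : ℝ))) :=
      (hvc.comp (continuous_const.sub hcoe)).add (hvc.comp (continuous_const.add hcoe))
    have hint : ∀ g : ℝ → ℝ, Integrable g → Integrable (fun s : ℝ => g s *
        (vil β' (t - (s : ℝ)) + vil β' (t + (s : ℝ)))) := by
      intro g hg
      have := hg.bdd_mul (c := Cv + Cv) hcs.aestronglyMeasurable (Eventually.of_forall fun z => by
        rw [Real.norm_eq_abs]
        exact (abs_add_le _ _).trans (add_le_add (hCv _) (hCv _)))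
      refine this.congr (Eventually.of_forall fun s => ?_)
      simp only []; ring
    have e1 : ∀ s : ℝ, C / 2 * (γ s - m * χ s) * (vil β' (t - (s : ℝ)) + vil β' (t + (s : ℝ))) =
        C / 2 * (γ s * (vil β' (t - (s : ℝ)) + vil β' (t + (s : ℝ)))) -
        C / 2 * m * (χ s * (vil β' (t - (s : ℝ)) + vil β' (t + (s : ℝ)))) := by intro s; ring
    simp_rw [e1]
    rw [integral_sub ((hint γ hγi).const_mul _) ((hint χ hχi).const_mul _), integral_const_mul,
      integral_const_mul, hper]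
    have e2 : ∫ s : ℝ, γ s * (vil β' (t - (s : ℝ)) + vil β' (t + (s : ℝ))) = 2 * (vil β t / C) := by
      induction t using QuotientAddGroup.induction_on with
      | H t =>
        obtain ⟨hi, he⟩ := h3 t
        change ∫ s : ℝ, γ s * (vR β' (t - s) + vR β' (t + s)) = 2 * (vR β t / C)
        have e3 : ∀ s : ℝ, γ s * (vR β' (t - s) + vR β' (t + s)) =
          vR β' (t - s) * γ s + vR β' (t - -s) * γ (-s) := by
          intro s
          have : γ (-s) = γ s := by simp [hγ]
          rw [this]; ring_nf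
        simp_rw [e3]
        rw [integral_add hi (hi.comp_neg), integral_neg_eq_self (fun s => vR β' (t - s) * γ s) volume]
        have he' : vR β t = C * ∫ s : ℝ, vR β' (t - s) * γ s := he
        have he2 : vR β t / C = ∫ s : ℝ, vR β' (t - s) * γ s := by
          rw [he']; exact mul_div_cancel_left₀ _ hC.ne'
        rw [he2]
        change (∫ s : ℝ, vR β' (t - s) * γ s) + (∫ s : ℝ, vR β' (t - s) * γ s) = _
        exact (two_mul _).symm
    rw [e2]
    field_simp

/-- `SE`: strict one-edge inequality. -/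
theorem SE (h1 : TaskV1) (h2 : TaskV2) (h3 : TaskV3) {β β' : ℝ} (hβ : 0 < β) (hββ' : β < β') :
    ∃ κ : ℝ, 0 ≤ κ ∧ κ < 1 ∧ ∀ (Λ : Finset Vx) (J : Ed → ℝ) (B : Finset Ed) (x u v : Vx),
      NN Λ J B x u v (vil β) / ZZ Λ J B u v (vil β) ≤
        NN Λ J B x u v (fun _ => 1) / ZZ Λ J B u v (fun _ => 1) +
        κ * (NN Λ J B x u v (vil β') / ZZ Λ J B u v (vil β') -
          NN Λ J B x u v (fun _ => 1) / ZZ Λ J B u v (fun _ => 1)) := by
  have hβ' : 0 < β' := hβ.trans hββ'
  obtain ⟨ρ, c0, hc0, hρ, hρi, hdec⟩ := vdecomp h1 h3 hβ hββ'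
  have hvc : Continuous (vil β) := (h1 β hβ).2.2.2
  have hvc' : Continuous (vil β') := (h1 β' hβ').2.2.2
  obtain ⟨M, hM0, hM⟩ := bdd_of_cont hvc
  refine ⟨max 0 (1 - c0 / M), le_max_left _ _, max_lt one_pos (by
    have : 0 < c0 / M := by positivity
    linarith), ?_⟩
  intro Λ J B x u v
  have hP := Pint Λ J B x u v h1 h2 hβ' ρ hρ hρi (fun t => 1 * vil β t + -c0) (by fun_prop)
    (fun t => by rw [← hdec]; ring)
  rw [NN_affine Λ J B x u v h1 hvc, ZZ_affine Λ J B u v h1 hvc] at hP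
  have hM0' := M0 h1 h2 Λ J B x u v hβ'
  have z1 : 0 < ZZ Λ J B u v (fun _ => 1) := ZZ_pos Λ J B u v h1 continuous_const fun _ => one_pos
  have zb : 0 < ZZ Λ J B u v (vil β) := ZZ_pos Λ J B u v h1 hvc fun t => vil_pos h1 hβ t
  have zw : 0 < ZZ Λ J B u v (vil β') := ZZ_pos Λ J B u v h1 hvc' fun t => vil_pos h1 hβ' t
  have zM : ZZ Λ J B u v (vil β) ≤ M * ZZ Λ J B u v (fun _ => 1) := by
    have h5 := ZZ_affine Λ J B u v h1 (g := fun _ => 1) continuous_const M 0
    have h6 := ZZ_mono Λ J B u v h1 hvc (g' := fun t => M * 1 + 0) continuous_const fun t => by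
      have := (abs_le.1 (hM t)).2
      linarith
    rw [h5] at h6
    linarith
  set N1 := NN Λ J B x u v (fun _ => 1)
  set Z1 := ZZ Λ J B u v (fun _ => 1)
  set Nb := NN Λ J B x u v (vil β)
  set Zb := ZZ Λ J B u v (vil β)
  set Nw := NN Λ J B x u v (vil β')
  set Zw := ZZ Λ J B u v (vil β')
  have hD : 0 ≤ Nw / Zw - N1 / Z1 := by
    rw [sub_nonneg, div_le_div_iff₀ z1 zw]
    exact hM0'
  set D := Nw / Zw - N1 / Z1 with hDdef
  have hη : (1 - c0 / M) * D ≤ max 0 (1 - c0 / M) * D :=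
    mul_le_mul_of_nonneg_right (le_max_right _ _) hD
  have hNb : Nb ≤ Nw / Zw * (Zb - c0 * Z1) + c0 * N1 := by
    have h7 : (Nb - c0 * N1) * Zw ≤ Nw * (Zb - c0 * Z1) := by linarith
    have h8 : Nb - c0 * N1 ≤ Nw * (Zb - c0 * Z1) / Zw := by
      rw [le_div_iff₀ zw]; exact h7
    have h9 : Nw * (Zb - c0 * Z1) / Zw = Nw / Zw * (Zb - c0 * Z1) := by ring
    linarith
  have h10 : Nw / Zw * (Zb - c0 * Z1) + c0 * N1 = Nw / Zw * Zb - c0 * Z1 * D := by
    rw [hDdef]
    have : c0 * Z1 * (N1 / Z1) = c0 * N1 := by field_simp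
    nlinarith [this]
  have h11 : Nb / Zb ≤ Nw / Zw - c0 * Z1 / Zb * D := by
    rw [div_le_iff₀ zb]
    have : (Nw / Zw - c0 * Z1 / Zb * D) * Zb = Nw / Zw * Zb - c0 * Z1 * D := by
      field_simp
    rw [this, ← h10]; exact hNb
  have h12 : c0 / M ≤ c0 * Z1 / Zb := by
    rw [div_le_div_iff₀ hM0 zb]
    nlinarith
  have h13 : c0 / M * D ≤ c0 * Z1 / Zb * D := mul_le_mul_of_nonneg_right h12 hD
  have h14 : Nw / Zw = N1 / Z1 + D := by rw [hDdef]; ring
  linarith

end Pool.Agent.H890.XY
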