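import Pool.Agent.H890.Tilt.Key

set_option autoImplicit false

/-! Definitions and task statements for the diluted Villain / XY models on `ℤ²`. -/

namespace Pool.Agent.H890.XY

open MeasureTheory Set Filter Topology Real
open Pool.Agent.H890.Tilt
open scoped ENNReal

instance instTwoPiPos : Fact (0 < 2 * π) := Fact.mk Real.two_pi_pos

/-- The circle `ℝ/2πℤ`. -/
abbrev TT := AddCircle (2 * π)

/-- The Villain weight `v_β(t) = ∑_k exp(-β (t + 2πk)² / 2)`. -/
noncomputable def vR (β : ℝ) (t : ℝ) : ℝ := ∑' k : ℤ, Real.exp (-β * (t + 2 * π * k) ^ 2 / 2)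

theorem vR_periodic (β : ℝ) : Function.Periodic (vR β) (2 * π) := by
  intro t
  unfold vR
  rw [← (Equiv.addRight (1 : ℤ)).tsum_eq (fun k : ℤ => Real.exp (-β * (t + 2 * π * k) ^ 2 / 2))]
  refine tsum_congr fun k => ?_
  simp only [Equiv.coe_addRight, Int.cast_add, Int.cast_one]
  congr 1
  ring

/-- The Villain weight as a function on the circle. -/
noncomputable def vil (β : ℝ) : TT → ℝ := (vR_periodic β).lift

/-- The cosine as a function on the circle. -/
noncomputable def ccos : TT → ℝ := Real.cos_periodic.lift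

/-- Sites of `ℤ²`. -/
abbrev Vx := ℤ × ℤ

/-- Nearest-neighbour edges of `ℤ²`: `(x, false)` joins `x` and `x + (1,0)`, and
`(x, true)` joins `x` and `x + (0,1)`. -/
abbrev Ed := (ℤ × ℤ) × Bool

/-- The second endpoint of an edge. -/
def tip (e : Ed) : Vx := if e.2 then (e.1.1, e.1.2 + 1) else (e.1.1 + 1, e.1.2)

/-- The box `Λ_L = {-L,…,L}²`. -/
noncomputable def box (L : ℕ) : Finset Vx := Finset.Icc (-(L : ℤ)) L ×ˢ Finset.Icc (-(L : ℤ)) L

/-- The edges with both endpoints in `Λ_L`. -/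
noncomputable def edges (L : ℕ) : Finset Ed :=
  ((box L) ×ˢ (Finset.univ : Finset Bool)).filter (fun e => tip e ∈ box L)

/-- Extend a spin configuration on `Λ` by `0` outside `Λ` (the values outside are never used). -/
noncomputable def ext (Λ : Finset Vx) (θ : Λ → TT) : Vx → TT :=
  fun x => if h : x ∈ Λ then θ ⟨x, h⟩ else 0

/-- The uniform probability measure on spin configurations on `Λ`. -/
noncomputable def unif (Λ : Finset Vx) : Measure (Λ → TT) :=
  Measure.pi (fun _ : Λ => AddCircle.haarAddCircle)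

/-- The weight of a spin configuration: the product over the edges `e ∈ B` of
`k (J e) (θ_x - θ_y)`. -/
noncomputable def wt (k : ℝ → TT → ℝ) (J : Ed → ℝ) (B : Finset Ed) (η : Vx → TT) : ℝ :=
  ∏ e ∈ B, k (J e) (η e.1 - η (tip e))

/-- The two-point function `⟨cos(θ_0 - θ_x)⟩` of the model with edge weights `k (J e)` on the edges
`e ∈ B` and spins on `Λ`. -/
noncomputable def tpf (k : ℝ → TT → ℝ) (J : Ed → ℝ) (Λ : Finset Vx) (B : Finset Ed) (x : Vx) : ℝ :=
  (∫ θ, ccos (ext Λ θ 0 - ext Λ θ x) * wt k J B (ext Λ θ) ∂(unif Λ)) /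
    (∫ θ, wt k J B (ext Λ θ) ∂(unif Λ))

/-- The Villain edge weight at inverse temperature `β > 0`; coupling `0` means no edge
(for definiteness couplings `≤ 0` are treated as `0`). -/
noncomputable def kV (β : ℝ) : TT → ℝ := fun t => if 0 < β then vil β t else 1

/-- The XY edge weight `exp(β cos t)` at inverse temperature `β ≥ 0`; coupling `0` means no edge
(for definiteness couplings `≤ 0` are treated as `0`). -/
noncomputable def kX (β : ℝ) : TT → ℝ := fun t => if 0 < β then Real.exp (β * ccos t) else 1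

/-- The couplings of the diluted model: `β` on open edges, `0` on closed edges. -/
noncomputable def Jof (β : ℝ) (ω : Ed → Bool) : Ed → ℝ := fun e => if ω e then β else 0

/-- The infinite-volume two-point function of the diluted model. -/
noncomputable def tpInf (k : ℝ → TT → ℝ) (β : ℝ) (ω : Ed → Bool) (x : Vx) : ℝ :=
  limUnder atTop (fun L : ℕ => tpf k (Jof β ω) (box L) (edges L) x)

/-- The averaged two-point function `𝔼_p[⟨cos(θ_0 - θ_x)⟩_{β,ω}]`. -/
noncomputable def avg (k : ℝ → TT → ℝ) (p : unitInterval) (β : ℝ) (x : Vx) : ℝ :=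
  ∫ ω, tpInf k β ω x ∂(Measure.infinitePi (fun _ : Ed => bern p))

/-- Polynomial decay (a lower bound): `f(x) ≥ c |x|^{-C}` for all `x ≠ 0`. -/
def Poly (f : Vx → ℝ) : Prop :=
  ∃ c C : ℝ, 0 < c ∧ 0 < C ∧ ∀ x : Vx, x ≠ 0 →
    c * Real.sqrt ((x.1 : ℝ) ^ 2 + (x.2 : ℝ) ^ 2) ^ (-C) ≤ f x

/-- `β_c(p) = inf {β > 0 : 𝔼_p[⟨cos(θ_0 - θ_x)⟩_{β,ω}] decays polynomially}`, `inf ∅ = ∞`. -/
noncomputable def betac (k : ℝ → TT → ℝ) (p : unitInterval) : ℝ≥0∞ :=
  sInf {b : ℝ≥0∞ | ∃ β : ℝ, 0 < β ∧ b = ENNReal.ofReal β ∧ Poly (avg k p β)}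

/-! ### Tasks -/

/-- V1: basics of the Villain weight. -/
def TaskV1 : Prop := ∀ β : ℝ, 0 < β →
  Continuous (vR β) ∧ (∀ t, 0 < vR β t) ∧ (∀ t, vR β (-t) = vR β t) ∧ Continuous (vil β)

/-- V2: product identity. -/
def TaskV2 : Prop := ∀ β : ℝ, 0 < β → ∀ a b : ℝ,
  vR β (a + b) * vR β (a - b) =
    vR (2 * β) a * vR (2 * β) b + vR (2 * β) (a + π) * vR (2 * β) (b + π)

/-- V3: convolution identity. -/
def TaskV3 : Prop := ∀ β β' : ℝ, 0 < β → β < β' → ∃ C β1 : ℝ, 0 < C ∧ 0 < β1 ∧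
  ∀ t, Integrable (fun s : ℝ => vR β' (t - s) * Real.exp (-β1 * s ^ 2 / 2)) ∧
    vR β t = C * ∫ s : ℝ, vR β' (t - s) * Real.exp (-β1 * s ^ 2 / 2)

open Classical in
/-- H: comparison of percolation averages, edge by edge. -/
def TaskH : Prop := ∀ (E : Type) (S : Finset E) (Φ : (E → ℝ) → ℝ),
  (∀ J J' : E → ℝ, (∀ e ∈ S, J e = J' e) → Φ J = Φ J') →
  ∀ (β β' : ℝ) (p p' : unitInterval),
  (∀ J : E → ℝ, ∀ e ∈ S, (1 - (p : ℝ)) * Φ (Function.update J e 0) + p * Φ (Function.update J e β) ≤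
    (1 - (p' : ℝ)) * Φ (Function.update J e 0) + p' * Φ (Function.update J e β')) →
  ∫ ω, Φ (fun e => if ω e then β else 0) ∂(Measure.infinitePi (fun _ : E => bern p)) ≤
    ∫ ω, Φ (fun e => if ω e then β' else 0) ∂(Measure.infinitePi (fun _ : E => bern p'))

/-- C: continuity of the threshold. -/
def TaskC : Prop := ∀ (P : unitInterval → ℝ → Prop),
  (∀ p p' β, 0 < β → p ≤ p' → P p β → P p' β) →
  (∀ p β β', 0 < β → β ≤ β' → P p β → P p β') →
  (∀ β β', 0 < β → β < β' → ∃ κ : ℝ, 0 ≤ κ ∧ κ < 1 ∧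
    ∀ p p' : unitInterval, κ * p ≤ p' → P p β → P p' β') →
  ContinuousOn (fun p : unitInterval =>
    sInf {b : ℝ≥0∞ | ∃ β : ℝ, 0 < β ∧ b = ENNReal.ofReal β ∧ P p β})
    {p : unitInterval | 0 < (p : ℝ)}

/-- X: integrating out the spins outside `Λ`. -/
def TaskX : Prop := ∀ (Λ Λ' : Finset Vx), Λ ⊆ Λ' → ∀ (g : (Vx → TT) → ℝ), Continuous g →
  (∀ η η' : Vx → TT, (∀ x ∈ Λ, η x = η' x) → g η = g η') →
  ∫ θ, g (ext Λ' θ) ∂(unif Λ') = ∫ θ, g (ext Λ θ) ∂(unif Λ)

end Pool.Agent.H890.XY
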