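import Pool.Agent.H890.XY.P

set_option autoImplicit false

/-! Tasks for the XY model. -/

namespace Pool.Agent.H890.XY

open MeasureTheory Set Filter Topology Real
open Pool.Agent.H890.Tilt
open scoped ENNReal

/-- one-edge ratio: `⟨cos(θ_0 - θ_x)⟩` in the model with edge weights `k (J e)` on `e ∈ B` and one
additional edge `uv` of weight `g`. -/
noncomputable def FFk (k : ℝ → TT → ℝ) (Λ : Finset Vx) (J : Ed → ℝ) (B : Finset Ed) (x u v : Vx)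
    (g : TT → ℝ) : ℝ :=
  (∫ θ, ccos (chi Λ 0 x θ) * (g (chi Λ u v θ) * wt k J B (ext Λ θ)) ∂unif Λ) /
    (∫ θ, g (chi Λ u v θ) * wt k J B (ext Λ θ) ∂unif Λ)

/-- Z0: without interaction there is no correlation. -/
def TaskZ0 : Prop := ∀ k : ℝ → TT → ℝ, k 0 = (fun _ => 1) → ∀ (p : unitInterval) (x : Vx),
  x ≠ 0 → avg k p 0 x = 0

/-- pointwise bounded limits of sums `∑ φ(a)φ(b)` -/
def FL {X : Type} [TopologicalSpace X] (K : X → X → ℝ) : Prop :=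
  ∃ Kn : ℕ → X → X → ℝ, (∀ n, FK (Kn n)) ∧ (∃ C, ∀ n a b, |Kn n a b| ≤ C) ∧
    ∀ a b, Tendsto (fun n => Kn n a b) atTop (𝓝 (K a b))

/-- FLgin: Ginibre duplication for `FL` kernels. -/
def TaskFLgin : Prop := ∀ (Λ : Finset Vx) (f w ws Bf : (Λ → TT) → ℝ), Continuous f → Continuous w →
  Continuous ws → Continuous Bf →
  FL (fun a b : Λ → TT => (f (a + b) - f (a - b)) *
      ((w (a + b) * ws (a - b) - ws (a + b) * w (a - b)) * (Bf (a + b) * Bf (a - b)))) →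
  (∫ θ, f θ * (ws θ * Bf θ) ∂unif Λ) * (∫ θ, w θ * Bf θ ∂unif Λ) ≤
      (∫ θ, f θ * (w θ * Bf θ) ∂unif Λ) * (∫ θ, ws θ * Bf θ ∂unif Λ)

/-- FLdouble: positivity for `FL` kernels after duplication. -/
def TaskFLdouble : Prop := ∀ (Λ : Finset Vx) (Q : (Λ → TT) × (Λ → TT) → ℝ), Continuous Q →
  FL (fun a b : Λ → TT => Q (a + b, a - b)) → 0 ≤ ∫ z, Q z ∂((unif Λ).prod (unif Λ))

/-- FLmul: closure of `FL`. -/
def TaskFLmul : Prop := ∀ (X : Type) [TopologicalSpace X] (K L : X → X → ℝ), FL K → FL L →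
  FL (fun a b => K a b * L a b)

/-- FLser: power series with nonnegative coefficients. -/
def TaskFLser : Prop := ∀ (X : Type) [TopologicalSpace X] (φ : X → ℝ), Continuous φ →
  (∀ x, |φ x| ≤ 1) → ∀ (c : ℕ → ℝ), (∀ i, 0 ≤ c i) → Summable c → ∀ K : X → X → ℝ,
  (∀ a b, HasSum (fun i => c i * (φ a * φ b) ^ i) (K a b)) → FL K

/-- Exp: the two power series needed. -/
def TaskExp : Prop := ∀ r : ℝ, 0 ≤ r →
  (∃ c : ℕ → ℝ, (∀ i, 0 ≤ c i) ∧ Summable c ∧ ∀ t : ℝ, HasSum (fun i => c i * t ^ i) (Real.exp (r * t))) ∧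
  (∃ c : ℕ → ℝ, (∀ i, 0 ≤ c i) ∧ Summable c ∧
    ∀ t : ℝ, HasSum (fun i => c i * t ^ i) (Real.exp (r * t) - Real.exp (-(r * t))))

/-- Gseq: the elementary iteration. -/
def TaskGseq : Prop := ∀ β β' : ℝ, 0 < β → β < β' → ∃ κ : ℝ, 0 ≤ κ ∧ κ < 1 ∧ ∀ G : ℝ → ℝ,
  (∀ s t, 0 ≤ s → s ≤ t → G s ≤ G t) →
  (∀ s t h, 0 ≤ s → s ≤ t → 0 ≤ h →
    Real.exp (-2 * (t - s)) * (G (s + h) - G s) ≤ G (t + h) - G t) →
  G β ≤ G 0 + κ * (G β' - G 0)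

end Pool.Agent.H890.XY
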