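import Pool.Agent.H890.XY.Stmts

set_option autoImplicit false

namespace Pool.Agent.H890.XY

open MeasureTheory Set Filter Topology Real

private lemma V1_term (β t : ℝ) (k : ℤ) :
    ((Real.exp (-β * (t + 2 * π * k) ^ 2 / 2) : ℝ) : ℂ)
      = Complex.exp (-(β * t ^ 2 / 2 : ℝ)) *
        jacobiTheta₂_term k (Complex.I * ((β * t : ℝ) : ℂ)) (((2 * π * β : ℝ) : ℂ) * Complex.I) := by
  unfold jacobiTheta₂_term
  rw [← Complex.exp_add, Complex.ofReal_exp]
  congr 1
  push_cast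
  have hI : Complex.I ^ 2 = -1 := Complex.I_sq
  ring_nf
  simp only [hI]
  ring

private lemma V1_im {β : ℝ} (hβ : 0 < β) : 0 < ((((2 * π * β : ℝ) : ℂ) * Complex.I)).im := by
  simp only [Complex.mul_im, Complex.ofReal_re, Complex.I_im, Complex.ofReal_im, Complex.I_re]
  have : 0 < 2 * π * β := by positivity
  linarith

private lemma V1_summable {β : ℝ} (hβ : 0 < β) (t : ℝ) :
    Summable (fun k : ℤ => Real.exp (-β * (t + 2 * π * k) ^ 2 / 2)) := by
  have h1 := (summable_jacobiTheta₂_term_iff (Complex.I * ((β * t : ℝ) : ℂ))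
    (((2 * π * β : ℝ) : ℂ) * Complex.I)).2 (V1_im hβ)
  have h2 := h1.mul_left (Complex.exp (-(β * t ^ 2 / 2 : ℝ)))
  simp only [← V1_term] at h2
  exact Complex.summable_ofReal.1 h2

private lemma V1_eq {β : ℝ} (hβ : 0 < β) (t : ℝ) :
    ((vR β t : ℝ) : ℂ) = Complex.exp (-(β * t ^ 2 / 2 : ℝ)) *
      jacobiTheta₂ (Complex.I * ((β * t : ℝ) : ℂ)) (((2 * π * β : ℝ) : ℂ) * Complex.I) := by
  unfold vR jacobiTheta₂
  rw [Complex.ofReal_tsum, ← tsum_mul_left]
  refine tsum_congr fun k => ?_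
  exact V1_term β t k

private lemma V1_cont {β : ℝ} (hβ : 0 < β) : Continuous (vR β) := by
  have h1 : Continuous (fun t : ℝ => ((vR β t : ℝ) : ℂ)) := by
    simp only [V1_eq hβ]
    refine Continuous.mul (by fun_prop) ?_
    rw [continuous_iff_continuousAt]
    intro t
    have h2 : ContinuousAt (fun t : ℝ => ((Complex.I * ((β * t : ℝ) : ℂ)),
      (((2 * π * β : ℝ) : ℂ) * Complex.I))) t := by fun_prop
    exact ContinuousAt.comp (f := fun t : ℝ => ((Complex.I * ((β * t : ℝ) : ℂ)),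
      (((2 * π * β : ℝ) : ℂ) * Complex.I))) (g := fun p : ℂ × ℂ => jacobiTheta₂ p.1 p.2)
      (continuousAt_jacobiTheta₂ _ (V1_im hβ)) h2
  have h3 := Complex.continuous_re.comp h1
  have h4 : (Complex.re ∘ fun t : ℝ => ((vR β t : ℝ) : ℂ)) = vR β := by
    funext t
    exact Complex.ofReal_re _
  rwa [h4] at h3

theorem v1 : TaskV1 := by
  intro β hβ
  refine ⟨V1_cont hβ, ?_, ?_, ?_⟩
  · intro t
    exact (V1_summable hβ t).tsum_pos (fun k => (Real.exp_pos _).le) 0 (Real.exp_pos _)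
  · intro t
    unfold vR
    rw [← (Equiv.neg ℤ).tsum_eq (fun k : ℤ => Real.exp (-β * (t + 2 * π * k) ^ 2 / 2))]
    refine tsum_congr fun k => ?_
    simp only [Equiv.neg_apply, Int.cast_neg]
    congr 1
    ring
  · exact continuous_coinduced_dom.2 (V1_cont hβ)

end Pool.Agent.H890.XY
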