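import Pool.Agent.H890.XY.Stmts

set_option autoImplicit false

namespace Pool.Agent.H890.XY

open MeasureTheory Set Filter Topology Real

/-- parity decomposition of pairs -/
def pairEquiv : (ℤ × ℤ) ⊕ (ℤ × ℤ) ≃ ℤ × ℤ where
  toFun q := q.elim (fun p => (p.1 + p.2, p.1 - p.2)) (fun p => (p.1 + p.2 + 1, p.1 - p.2))
  invFun q := if Even (q.1 + q.2) then Sum.inl ((q.1 + q.2) / 2, (q.1 - q.2) / 2)
    else Sum.inr ((q.1 + q.2 - 1) / 2, (q.1 - q.2 - 1) / 2)
  left_inv := by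
    rintro (⟨i, j⟩ | ⟨i, j⟩)
    · simp only [Sum.elim_inl]
      rw [if_pos ⟨i, by ring⟩]
      congr 2 <;> omega
    · simp only [Sum.elim_inr]
      rw [if_neg (by rw [Int.not_even_iff_odd]; exact ⟨i, by ring⟩)]
      congr 2 <;> omega
  right_inv := by
    rintro ⟨k, l⟩
    by_cases h : Even (k + l)
    · simp only [if_pos h, Sum.elim_inl]
      obtain ⟨r, hr⟩ := h
      ext <;> simp <;> omega
    · simp only [if_neg h, Sum.elim_inr]
      rw [Int.not_even_iff_odd] at h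
      obtain ⟨r, hr⟩ := h
      ext <;> simp <;> omega

theorem gauss_bound (β : ℝ) (hβ : 0 < β) (t : ℝ) (k : ℤ) :
    Real.exp (-β * (t + 2 * π * k) ^ 2 / 2) ≤
      Real.exp (1 / (2 * β) + |t|) * Real.exp (-|(k : ℝ)|) := by
  rw [← Real.exp_add]
  apply Real.exp_le_exp.2
  have h1 : |t + 2 * π * k| - 1 / (2 * β) ≤ β * (t + 2 * π * k) ^ 2 / 2 := by
    have h0 : 0 ≤ (β * |t + 2 * π * k| - 1) ^ 2 / (2 * β) := by positivity
    have h2 : (β * |t + 2 * π * k| - 1) ^ 2 / (2 * β) =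
        β * (t + 2 * π * k) ^ 2 / 2 - |t + 2 * π * k| + 1 / (2 * β) := by
      rw [← sq_abs (t + 2 * π * k)]
      field_simp
      ring
    linarith
  have h3 : |(k : ℝ)| - |t| ≤ |t + 2 * π * k| := by
    have h4 : |2 * π * (k : ℝ)| ≤ |t + 2 * π * k| + |t| := by
      have := abs_sub_abs_le_abs_sub (2 * π * (k : ℝ)) (-t)
      rw [abs_neg] at this
      have h5 : 2 * π * (k : ℝ) - -t = t + 2 * π * k := by ring
      rw [h5] at this
      linarith
    have h6 : |(k : ℝ)| ≤ |2 * π * (k : ℝ)| := by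
      rw [abs_mul, abs_of_pos (by positivity : (0 : ℝ) < 2 * π)]
      have : (1 : ℝ) ≤ 2 * π := by nlinarith [Real.pi_gt_three]
      nlinarith [abs_nonneg (k : ℝ)]
    linarith
  linarith

theorem summable_exp_abs : Summable fun k : ℤ => Real.exp (-|(k : ℝ)|) := by
  have hg : Summable fun n : ℕ => Real.exp (-(n : ℝ)) := Real.summable_exp_neg_nat
  apply Summable.of_nat_of_neg
  · refine hg.congr fun n => ?_
    simp
  · refine hg.congr fun n => ?_
    simp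

theorem summable_vR (β : ℝ) (hβ : 0 < β) (t : ℝ) :
    Summable fun k : ℤ => Real.exp (-β * (t + 2 * π * k) ^ 2 / 2) :=
  Summable.of_nonneg_of_le (fun _ => (Real.exp_pos _).le) (gauss_bound β hβ t)
    (summable_exp_abs.mul_left _)

theorem norm_summable_vR (β : ℝ) (hβ : 0 < β) (t : ℝ) :
    Summable fun k : ℤ => ‖Real.exp (-β * (t + 2 * π * k) ^ 2 / 2)‖ :=
  (summable_vR β hβ t).norm

theorem v2 : TaskV2 := by
  intro β hβ a b
  have h2 : 0 < 2 * β := by linarith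
  unfold vR
  rw [tsum_mul_tsum_of_summable_norm (norm_summable_vR β hβ (a + b))
      (norm_summable_vR β hβ (a - b)),
    tsum_mul_tsum_of_summable_norm (norm_summable_vR (2 * β) h2 a)
      (norm_summable_vR (2 * β) h2 b),
    tsum_mul_tsum_of_summable_norm (norm_summable_vR (2 * β) h2 (a + π))
      (norm_summable_vR (2 * β) h2 (b + π)), ← pairEquiv.tsum_eq]
  have e1 : ∀ p : ℤ × ℤ, Real.exp (-β * (a + b + 2 * π * ((pairEquiv (Sum.inl p)).1 : ℤ)) ^ 2 / 2) *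
      Real.exp (-β * (a - b + 2 * π * ((pairEquiv (Sum.inl p)).2 : ℤ)) ^ 2 / 2) =
      Real.exp (-(2 * β) * (a + 2 * π * p.1) ^ 2 / 2) *
        Real.exp (-(2 * β) * (b + 2 * π * p.2) ^ 2 / 2) := by
    intro p
    simp only [pairEquiv, Equiv.coe_fn_mk, Sum.elim_inl]
    rw [← Real.exp_add, ← Real.exp_add]
    congr 1
    push_cast
    ring
  have e2 : ∀ p : ℤ × ℤ, Real.exp (-β * (a + b + 2 * π * ((pairEquiv (Sum.inr p)).1 : ℤ)) ^ 2 / 2) *
      Real.exp (-β * (a - b + 2 * π * ((pairEquiv (Sum.inr p)).2 : ℤ)) ^ 2 / 2) =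
      Real.exp (-(2 * β) * (a + π + 2 * π * p.1) ^ 2 / 2) *
        Real.exp (-(2 * β) * (b + π + 2 * π * p.2) ^ 2 / 2) := by
    intro p
    simp only [pairEquiv, Equiv.coe_fn_mk, Sum.elim_inr]
    rw [← Real.exp_add, ← Real.exp_add]
    congr 1
    push_cast
    ring
  have s1 : Summable fun p : ℤ × ℤ => Real.exp (-(2 * β) * (a + 2 * π * p.1) ^ 2 / 2) *
        Real.exp (-(2 * β) * (b + 2 * π * p.2) ^ 2 / 2) :=
    summable_mul_of_summable_norm (norm_summable_vR (2 * β) h2 a)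
      (norm_summable_vR (2 * β) h2 b)
  have s2 : Summable fun p : ℤ × ℤ => Real.exp (-(2 * β) * (a + π + 2 * π * p.1) ^ 2 / 2) *
        Real.exp (-(2 * β) * (b + π + 2 * π * p.2) ^ 2 / 2) :=
    summable_mul_of_summable_norm (norm_summable_vR (2 * β) h2 (a + π))
      (norm_summable_vR (2 * β) h2 (b + π))
  refine (HasSum.sum (f := fun q : (ℤ × ℤ) ⊕ (ℤ × ℤ) =>
    Real.exp (-β * (a + b + 2 * π * ((pairEquiv q).1 : ℤ)) ^ 2 / 2) *
      Real.exp (-β * (a - b + 2 * π * ((pairEquiv q).2 : ℤ)) ^ 2 / 2)) ?_ ?_).tsum_eq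
  · have h : ((fun q : (ℤ × ℤ) ⊕ (ℤ × ℤ) =>
        Real.exp (-β * (a + b + 2 * π * ((pairEquiv q).1 : ℤ)) ^ 2 / 2) *
        Real.exp (-β * (a - b + 2 * π * ((pairEquiv q).2 : ℤ)) ^ 2 / 2)) ∘ Sum.inl) =
        fun p : ℤ × ℤ => Real.exp (-(2 * β) * (a + 2 * π * p.1) ^ 2 / 2) *
          Real.exp (-(2 * β) * (b + 2 * π * p.2) ^ 2 / 2) := funext e1
    rw [h]
    exact s1.hasSum
  · have h : ((fun q : (ℤ × ℤ) ⊕ (ℤ × ℤ) =>
        Real.exp (-β * (a + b + 2 * π * ((pairEquiv q).1 : ℤ)) ^ 2 / 2) *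
        Real.exp (-β * (a - b + 2 * π * ((pairEquiv q).2 : ℤ)) ^ 2 / 2)) ∘ Sum.inr) =
        fun p : ℤ × ℤ => Real.exp (-(2 * β) * (a + π + 2 * π * p.1) ^ 2 / 2) *
          Real.exp (-(2 * β) * (b + π + 2 * π * p.2) ^ 2 / 2) := funext e2
    rw [h]
    exact s2.hasSum

end Pool.Agent.H890.XY
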