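import Pool.Agent.H890.XY.Stmts

set_option autoImplicit false

/-! The convolution identity for the Villain weight. -/

namespace Pool.Agent.H890.XY

open MeasureTheory Set Filter Topology Real

namespace V3

theorem summable_exp_abs : Summable (fun k : ℤ => Real.exp (-|(k : ℝ)|)) := by
  have h : Summable (fun n : ℕ => Real.exp (-(n : ℝ))) := by
    have h1 : (fun n : ℕ => Real.exp (-(n : ℝ))) = fun n : ℕ => (Real.exp (-1)) ^ n := by
      funext n
      rw [← Real.exp_nat_mul]
      congr 1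
      ring
    rw [h1]
    exact summable_geometric_of_lt_one (Real.exp_pos _).le (by
      rw [Real.exp_lt_one_iff]; norm_num)
  refine Summable.of_nat_of_neg ?_ ?_
  · simpa using h
  · simpa using h

theorem summable_gauss (b : ℝ) (hb : 0 < b) (x : ℝ) :
    Summable (fun k : ℤ => Real.exp (-b * (x + 2 * π * k) ^ 2 / 2)) := by
  refine Summable.of_nonneg_of_le (fun k => (Real.exp_pos _).le) (fun k => ?_)
    (summable_exp_abs.mul_left (Real.exp (|x| + 1 / (2 * b))))
  rw [← Real.exp_add]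
  refine Real.exp_le_exp.2 ?_
  have h1 : |x + 2 * π * k| ≤ b * (x + 2 * π * k) ^ 2 / 2 + 1 / (2 * b) := by
    have h2 : 0 ≤ (b * |x + 2 * π * k| - 1) ^ 2 := sq_nonneg _
    have h3 : (b * |x + 2 * π * k| - 1) ^ 2 =
        b ^ 2 * (x + 2 * π * k) ^ 2 - 2 * b * |x + 2 * π * k| + 1 := by
      rw [sub_sq, mul_pow, sq_abs]; ring
    rw [h3] at h2
    have h4 : 2 * b * |x + 2 * π * k| ≤ 2 * b * (b * (x + 2 * π * k) ^ 2 / 2 + 1 / (2 * b)) := by
      have h5 : 2 * b * (b * (x + 2 * π * k) ^ 2 / 2 + 1 / (2 * b)) =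
          b ^ 2 * (x + 2 * π * k) ^ 2 + 1 := by
        field_simp
      rw [h5]; linarith
    exact le_of_mul_le_mul_left h4 (by positivity)
  have h6 : |(k : ℝ)| ≤ |x + 2 * π * k| + |x| := by
    have h7 : |2 * π * (k : ℝ)| ≤ |x + 2 * π * k| + |x| := by
      have h8 : 2 * π * (k : ℝ) = (x + 2 * π * k) - x := by ring
      calc |2 * π * (k : ℝ)| = |(x + 2 * π * k) - x| := by rw [← h8]
        _ ≤ |x + 2 * π * k| + |x| := abs_sub _ _
    have h9 : |(k : ℝ)| ≤ |2 * π * (k : ℝ)| := by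
      rw [abs_mul, abs_of_pos Real.two_pi_pos]
      have : 1 ≤ 2 * π := by linarith [Real.pi_gt_three]
      nlinarith [abs_nonneg (k : ℝ)]
    linarith
  linarith

/-- completing the square -/
theorem gauss_eq {b b1 : ℝ} (hb : 0 < b) (hb1 : 0 < b1) (a s : ℝ) :
    Real.exp (-b * (a - s) ^ 2 / 2) * Real.exp (-b1 * s ^ 2 / 2) =
      Real.exp (-(b * b1 / (b + b1)) * a ^ 2 / 2) *
        Real.exp (-((b + b1) / 2) * (s - b * a / (b + b1)) ^ 2) := by
  rw [← Real.exp_add, ← Real.exp_add]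
  congr 1
  have : b + b1 ≠ 0 := by positivity
  field_simp
  ring

theorem gauss_integrable {b b1 : ℝ} (hb : 0 < b) (hb1 : 0 < b1) (a : ℝ) :
    Integrable (fun s : ℝ => Real.exp (-b * (a - s) ^ 2 / 2) * Real.exp (-b1 * s ^ 2 / 2)) := by
  simp_rw [gauss_eq hb hb1 a]
  refine Integrable.const_mul ?_ _
  exact (integrable_exp_neg_mul_sq (b := (b + b1) / 2) (by positivity)).comp_sub_right
    (b * a / (b + b1))

theorem gauss_integral {b b1 : ℝ} (hb : 0 < b) (hb1 : 0 < b1) (a : ℝ) :
    ∫ s : ℝ, Real.exp (-b * (a - s) ^ 2 / 2) * Real.exp (-b1 * s ^ 2 / 2) =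
      Real.sqrt (π / ((b + b1) / 2)) * Real.exp (-(b * b1 / (b + b1)) * a ^ 2 / 2) := by
  simp_rw [gauss_eq hb hb1 a]
  rw [integral_const_mul, integral_sub_right_eq_self
    (fun s => Real.exp (-((b + b1) / 2) * s ^ 2)) (b * a / (b + b1)), integral_gaussian, mul_comm]

end V3

open V3 in
theorem v3 : TaskV3 := by
  intro β β' hβ hlt
  have hβ' : 0 < β' := hβ.trans hlt
  set β1 : ℝ := β * β' / (β' - β) with hβ1
  have hd : 0 < β' - β := by linarith
  have hβ1p : 0 < β1 := by positivity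
  have hβeq : β' * β1 / (β' + β1) = β := by
    rw [hβ1]
    have : β' - β ≠ 0 := hd.ne'
    have h2 : β' + β * β' / (β' - β) = β' ^ 2 / (β' - β) := by field_simp; ring
    rw [h2]
    field_simp
  set C0 : ℝ := Real.sqrt (π / ((β' + β1) / 2)) with hC0
  have hC0p : 0 < C0 := Real.sqrt_pos.2 (by positivity)
  refine ⟨C0⁻¹, β1, inv_pos.2 hC0p, hβ1p, fun t => ?_⟩
  let F : ℤ → ℝ → ℝ := fun k s =>
    Real.exp (-β' * ((t + 2 * π * k) - s) ^ 2 / 2) * Real.exp (-β1 * s ^ 2 / 2)
  have hFi : ∀ k, Integrable (F k) := fun k => gauss_integrable hβ' hβ1p _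
  have hFint : ∀ k, ∫ s, F k s = C0 * Real.exp (-β * (t + 2 * π * k) ^ 2 / 2) := fun k => by
    rw [gauss_integral hβ' hβ1p, hβeq]
  have hFnn : ∀ k s, 0 ≤ F k s := fun k s => by positivity
  have hFnorm : ∀ k, ∫ s, ‖F k s‖ = C0 * Real.exp (-β * (t + 2 * π * k) ^ 2 / 2) := fun k => by
    rw [← hFint k]
    exact integral_congr_ae (Eventually.of_forall fun s => Real.norm_of_nonneg (hFnn k s))
  have hsum : Summable (fun k => ∫ s, ‖F k s‖) := by
    simp_rw [hFnorm]
    exact (summable_gauss β hβ t).mul_left C0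
  have hFs : ∀ s, Summable (fun k => F k s) := fun s => by
    have h := (summable_gauss β' hβ' (t - s)).mul_right (Real.exp (-β1 * s ^ 2 / 2))
    refine h.congr fun k => ?_
    show _ = Real.exp (-β' * ((t + 2 * π * k) - s) ^ 2 / 2) * Real.exp (-β1 * s ^ 2 / 2)
    congr 3
    ring
  have hts : ∀ s, ∑' k, F k s = vR β' (t - s) * Real.exp (-β1 * s ^ 2 / 2) := fun s => by
    unfold vR
    rw [← tsum_mul_right]
    refine tsum_congr fun k => ?_
    show Real.exp (-β' * ((t + 2 * π * k) - s) ^ 2 / 2) * Real.exp (-β1 * s ^ 2 / 2) = _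
    congr 3
    ring
  have hHS := hasSum_integral_of_summable_integral_norm hFi hsum
  constructor
  · have hmeas : AEStronglyMeasurable (fun s => ∑' k, F k s) volume := by
      refine aestronglyMeasurable_of_tendsto_ae (u := atTop)
        (f := fun (S : Finset ℤ) (s : ℝ) => ∑ k ∈ S, F k s) ?_ ?_
      · intro S
        exact (integrable_finset_sum S fun k _ => hFi k).aestronglyMeasurable
      · exact Eventually.of_forall fun s => (hFs s).hasSum
    have hint : Integrable (fun s => ∑' k, F k s) := by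
      refine ⟨hmeas, ?_⟩
      rw [hasFiniteIntegral_iff_enorm]
      have h1 : ∀ s, ‖∑' k, F k s‖ₑ = ∑' k, ENNReal.ofReal (F k s) := fun s => by
        rw [Real.enorm_eq_ofReal (tsum_nonneg fun k => hFnn k s),
          ENNReal.ofReal_tsum_of_nonneg (fun k => hFnn k s) (hFs s)]
      simp_rw [h1]
      rw [lintegral_tsum fun k => (hFi k).aestronglyMeasurable.aemeasurable.ennreal_ofReal]
      have h2 : ∀ k, ∫⁻ s, ENNReal.ofReal (F k s) = ENNReal.ofReal (∫ s, ‖F k s‖) := fun k => by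
        rw [ofReal_integral_eq_lintegral_ofReal (hFi k).norm
          (Eventually.of_forall fun s => norm_nonneg _)]
        exact lintegral_congr fun s => by rw [Real.norm_of_nonneg (hFnn k s)]
      simp_rw [h2]
      rw [← ENNReal.ofReal_tsum_of_nonneg (fun k => integral_nonneg fun s => norm_nonneg _) hsum]
      exact ENNReal.ofReal_lt_top
    exact hint.congr (Eventually.of_forall fun s => hts s)
  · have h3 : ∫ s, vR β' (t - s) * Real.exp (-β1 * s ^ 2 / 2) = C0 * vR β t := by
      rw [← integral_congr_ae (Eventually.of_forall fun s => hts s), ← hHS.tsum_eq]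
      simp_rw [hFint]
      rw [tsum_mul_left]
      rfl
    rw [h3, ← mul_assoc, inv_mul_cancel₀ hC0p.ne', one_mul]

end Pool.Agent.H890.XY
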