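import Pool.Agent.H890.XY.SE
import Pool.Agent.H890.XY.Gen
import Pool.Agent.H890.XY.V1
import Pool.Agent.H890.XY.V2
import Pool.Agent.H890.XY.V3

set_option autoImplicit false
set_option linter.unusedSectionVars false
set_option linter.unusedVariables false
set_option linter.deprecated false

/-! The Villain weight satisfies the requirements of `Gen`. -/

namespace Pool.Agent.H890.XY

open MeasureTheory Set Filter Topology Real
open Pool.Agent.H890.Tilt
open scoped ENNReal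

theorem kV_nonpos {s : ℝ} (hs : ¬ 0 < s) : kV s = fun _ => 1 := by
  unfold kV; simp [hs]

theorem kV_of_pos {s : ℝ} (hs : 0 < s) : kV s = vil s := by
  unfold kV; simp [hs]

theorem FFkV_one_le (Λ : Finset Vx) (J : Ed → ℝ) (B : Finset Ed) (x u v : Vx) (s : ℝ) (hs : 0 < s) :
    FFk kV Λ J B x u v (fun _ => 1) ≤ FFk kV Λ J B x u v (kV s) := by
  rw [kV_of_pos hs]
  have z1 : 0 < ZZ Λ J B u v (fun _ => 1) := ZZ_pos Λ J B u v v1 continuous_const fun _ => one_pos
  have zw : 0 < ZZ Λ J B u v (vil s) := ZZ_pos Λ J B u v v1 (v1 s hs).2.2.2 fun t => vil_pos v1 hs t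
  change NN Λ J B x u v (fun _ => 1) / ZZ Λ J B u v (fun _ => 1) ≤
    NN Λ J B x u v (vil s) / ZZ Λ J B u v (vil s)
  rw [div_le_div_iff₀ z1 zw]
  exact M0 v1 v2 Λ J B x u v hs

theorem goodV : Gen.Good kV where
  cont := kV_cont v1
  pos := kV_pos v1
  nonpos s hs := kV_nonpos hs
  mono := FFkV_one_le
  strict := by
    intro β β' hβ hlt
    obtain ⟨κ, h0, h1, h⟩ := SE v1 v2 v3 hβ hlt
    refine ⟨κ, h0, h1, fun Λ J B x u v => ?_⟩
    rw [kV_of_pos hβ, kV_of_pos (hβ.trans hlt)]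
    exact h Λ J B x u v

/-- Polynomial decay in the form `f(x) ≥ c (1 + |x|)^{-C}` for all `x`. -/
def Poly1 (f : Vx → ℝ) : Prop :=
  ∃ c C : ℝ, 0 < c ∧ 0 < C ∧ ∀ x : Vx,
    c * (1 + Real.sqrt ((x.1 : ℝ) ^ 2 + (x.2 : ℝ) ^ 2)) ^ (-C) ≤ f x

theorem Poly1.mono {f g : Vx → ℝ} (hf : Poly1 f) (h : ∀ x, f x ≤ g x) : Poly1 g := by
  obtain ⟨c, C, hc, hC, hf⟩ := hf
  exact ⟨c, C, hc, hC, fun x => (hf x).trans (h x)⟩

/-- The critical inverse temperature of the Villain model on the full lattice `ℤ²`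
(all edges open, no percolation). -/
noncomputable def betaKT : ℝ≥0∞ :=
  sInf {b : ℝ≥0∞ | ∃ β : ℝ, 0 ≤ β ∧ b = ENNReal.ofReal β ∧
    Poly1 (fun x => tpInf kV β (fun _ => true) x)}

theorem avg_one (k : ℝ → TT → ℝ) (β : ℝ) (x : Vx) :
    avg k 1 β x = tpInf k β (fun _ => true) x := by
  unfold avg
  have h1 : ∀ e : Ed, ∀ᵐ ω ∂(Measure.infinitePi (fun _ : Ed => bern 1)), ω e = true := by
    intro e
    have hmp := measurePreserving_eval_infinitePi (fun _ : Ed => bern 1) e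
    have h2 : ∀ᵐ b ∂(bern 1), b = true := by
      rw [ae_iff]
      have : {a : Bool | ¬ a = true} = {false} := by ext b; simp
      rw [this, bern_false]
      simp
    exact hmp.quasiMeasurePreserving.ae h2
  have h3 : ∀ᵐ ω ∂(Measure.infinitePi (fun _ : Ed => bern 1)), ω = fun _ => true := by
    filter_upwards [ae_all_iff.2 h1] with ω hω
    funext e; exact hω e
  have h4 : ∫ ω, tpInf k β ω x ∂(Measure.infinitePi (fun _ : Ed => bern 1)) =
      ∫ _ω, tpInf k β (fun _ => true) x ∂(Measure.infinitePi (fun _ : Ed => bern 1)) :=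
    integral_congr_ae (h3.mono fun ω hω => by simp only []; rw [hω])
  rw [h4]; simp

theorem persistence (hz : TaskZ0) (β : ℝ) (hβ : betaKT < ENNReal.ofReal β) :
    ∃ p0 : unitInterval, 1 / 2 < (p0 : ℝ) ∧ (p0 : ℝ) < 1 ∧
      ∀ p : unitInterval, p0 ≤ p → Poly1 (avg kV p β) := by
  obtain ⟨b, ⟨β0, hβ0, rfl, hP⟩, hlt⟩ := sInf_lt_iff.1 hβ
  have hlt' : β0 < β := (ENNReal.ofReal_lt_ofReal_iff_of_nonneg hβ0).1 hlt
  have e1 : (fun x => tpInf kV β0 (fun _ => true) x) = avg kV 1 β0 := by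
    funext x; exact (avg_one kV β0 x).symm
  rw [e1] at hP
  rcases hβ0.eq_or_lt with rfl | hpos
  · exfalso
    obtain ⟨c, C, hc, hC, hP⟩ := hP
    have h1 := hP (1, 0)
    rw [hz kV (kV_nonpos (lt_irrefl 0)) 1 (1, 0) (by simp)] at h1
    have h2 : 0 < c * (1 + Real.sqrt ((((1 : ℤ), (0 : ℤ)).1 : ℝ) ^ 2 +
        (((1 : ℤ), (0 : ℤ)).2 : ℝ) ^ 2)) ^ (-C) := by positivity
    linarith
  · obtain ⟨κ, h0, h1, h⟩ := Gen.transfer goodV hpos hlt'
    have hm : max κ (3 / 4) < 1 := max_lt h1 (by norm_num)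
    have hm2 : 3 / 4 ≤ max κ (3 / 4) := le_max_right _ _
    refine ⟨⟨max κ (3 / 4), le_trans (by norm_num) hm2, hm.le⟩, ?_, hm, ?_⟩
    · simp only []; linarith
    · intro p hp
      refine hP.mono fun x => h 1 p ?_ x
      have hp' : max κ (3 / 4) ≤ (p : ℝ) := hp
      have : κ * ((1 : unitInterval) : ℝ) = κ := by simp
      rw [this]
      exact (le_max_left _ _).trans hp'

end Pool.Agent.H890.XY
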