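import Pool.Agent.H890.XY.Gen

set_option autoImplicit false
set_option linter.unusedSectionVars false
set_option linter.unusedVariables false
set_option linter.deprecated false

/-! The strict one-edge inequality for the XY model. -/

namespace Pool.Agent.H890.XY

open MeasureTheory Set Filter Topology Real
open Pool.Agent.H890.Tilt
open scoped ENNReal

/-- XY weight. -/
noncomputable def eX (s : ℝ) : TT → ℝ := fun t => Real.exp (s * ccos t)

theorem eX_cont (s : ℝ) : Continuous (eX s) :=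
  Real.continuous_exp.comp (continuous_const.mul ccos_cont)

theorem eX_pos (s : ℝ) (t : TT) : 0 < eX s t := Real.exp_pos _

theorem eX_zero : eX 0 = fun _ => 1 := by
  funext t; simp [eX]

theorem kX_nonpos {s : ℝ} (hs : ¬ 0 < s) : kX s = fun _ => 1 := by
  unfold kX; simp [hs]

theorem kX_of_pos {s : ℝ} (hs : 0 < s) : kX s = eX s := by
  unfold kX eX; simp [hs]

theorem kX_cont (s : ℝ) : Continuous (kX s) := by
  by_cases hs : 0 < s
  · rw [kX_of_pos hs]; exact eX_cont s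
  · rw [kX_nonpos hs]; exact continuous_const

theorem kX_pos (s : ℝ) (t : TT) : 0 < kX s t := by
  by_cases hs : 0 < s
  · rw [kX_of_pos hs]; exact eX_pos s t
  · rw [kX_nonpos hs]; exact one_pos

theorem ccos_p (x y : TT) : ccos (x + y) = ccos x * ccos y - csin x * csin y := by
  induction x using QuotientAddGroup.induction_on with
  | H x =>
  induction y using QuotientAddGroup.induction_on with
  | H y =>
    show ccos (((x + y : ℝ)) : TT) = ccos (x : TT) * ccos (y : TT) - csin (x : TT) * csin (y : TT)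
    rw [ccos_coe, ccos_coe, ccos_coe, csin_coe, csin_coe, Real.cos_add]

theorem ccos_m (x y : TT) : ccos (x - y) = ccos x * ccos y + csin x * csin y := by
  induction x using QuotientAddGroup.induction_on with
  | H x =>
  induction y using QuotientAddGroup.induction_on with
  | H y =>
    show ccos (((x - y : ℝ)) : TT) = ccos (x : TT) * ccos (y : TT) + csin (x : TT) * csin (y : TT)
    rw [ccos_coe, ccos_coe, ccos_coe, csin_coe, csin_coe, Real.cos_sub]

theorem csin_le (t : TT) : |csin t| ≤ 1 := by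
  induction t using QuotientAddGroup.induction_on with
  | H x => exact Real.abs_sin_le_one x

theorem bddX {Y : Type} [TopologicalSpace Y] [CompactSpace Y] {g : Y → ℝ}
    (hg : Continuous g) : ∃ C, ∀ y, |g y| ≤ C := by
  obtain ⟨C, hC⟩ := (isCompact_univ (X := Y)).exists_bound_of_continuousOn hg.continuousOn
  exact ⟨C, fun y => hC y (mem_univ y)⟩

theorem FK.toFL {X : Type} [TopologicalSpace X] [CompactSpace X] {K : X → X → ℝ} (hK : FK K) :
    FL K := by
  refine ⟨fun _ => K, fun _ => hK, ?_, fun a b => tendsto_const_nhds⟩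
  obtain ⟨ι, _, φ, hφ, hK⟩ := hK
  have hc : Continuous (fun z : X × X => K z.1 z.2) := by
    have : (fun z : X × X => K z.1 z.2) = fun z => ∑ i, φ i z.1 * φ i z.2 := by
      funext z; exact hK _ _
    rw [this]
    exact continuous_finset_sum _ fun i _ => ((hφ i).comp continuous_fst).mul ((hφ i).comp continuous_snd)
  obtain ⟨C, hC⟩ := bddX hc
  exact ⟨C, fun _ a b => hC (a, b)⟩

theorem FL.congr {X : Type} [TopologicalSpace X] {K L : X → X → ℝ} (hK : FL K)
    (h : ∀ a b, K a b = L a b) : FL L := by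
  have : K = L := by funext a b; exact h a b
  rwa [← this]

section
variable (hmul : TaskFLmul) (hser : TaskFLser) (hexp : TaskExp)

include hser hexp in
theorem FL_exp {X : Type} [TopologicalSpace X] {φ : X → ℝ} (hφ : Continuous φ)
    (h1 : ∀ x, |φ x| ≤ 1) {r : ℝ} (hr : 0 ≤ r) : FL (fun a b => Real.exp (r * (φ a * φ b))) := by
  obtain ⟨⟨c, hc0, hcs, hc⟩, -⟩ := hexp r hr
  exact hser X φ hφ h1 c hc0 hcs _ fun a b => hc _

include hser hexp in
theorem FL_sinh {X : Type} [TopologicalSpace X] {φ : X → ℝ} (hφ : Continuous φ)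
    (h1 : ∀ x, |φ x| ≤ 1) {r : ℝ} (hr : 0 ≤ r) :
    FL (fun a b => Real.exp (r * (φ a * φ b)) - Real.exp (-(r * (φ a * φ b)))) := by
  obtain ⟨-, ⟨c, hc0, hcs, hc⟩⟩ := hexp r hr
  exact hser X φ hφ h1 c hc0 hcs _ fun a b => hc _

variable (Λ : Finset Vx)

include hser hexp in
theorem FL_kX (j : ℝ) (u v : Vx) :
    FL (fun a b : Λ → TT => kX j (chi Λ u v (a + b)) * kX j (chi Λ u v (a - b))) := by
  by_cases hj : 0 < j
  · refine FL.congr (FL_exp hser hexp (ccos_cont.comp (chi_cont Λ u v)) (fun _ => ccos_le _)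
      (r := 2 * j) (by positivity)) ?_
    intro a b
    rw [kX_of_pos hj]
    simp only [eX, chi_add, chi_sub, Function.comp]
    rw [← Real.exp_add, ccos_p, ccos_m]
    congr 1; ring
  · refine FL.congr (FK.one (X := Λ → TT)).toFL ?_
    intro a b
    rw [kX_nonpos hj]; norm_num

include hmul hser hexp in
theorem FL_wt (J : Ed → ℝ) (B : Finset Ed) :
    FL (fun a b : Λ → TT => wt kX J B (ext Λ (a + b)) * wt kX J B (ext Λ (a - b))) := by
  classical
  induction B using Finset.induction_on with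
  | empty =>
    refine FL.congr (FK.one (X := Λ → TT)).toFL ?_
    intro a b; simp [wt]
  | insert e B he ih =>
    refine FL.congr (hmul _ _ _ (FL_kX hser hexp Λ (J e) e.1 (tip e)) ih) ?_
    intro a b
    unfold wt
    rw [Finset.prod_insert he, Finset.prod_insert he]
    unfold chi
    ring

theorem wtX_cont (J : Ed → ℝ) (B : Finset Ed) :
    Continuous (fun θ : Λ → TT => wt kX J B (ext Λ θ)) := by
  unfold wt
  exact continuous_finset_prod _ fun e _ => (kX_cont _).comp (chi_cont Λ e.1 (tip e))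

theorem wtX_pos (J : Ed → ℝ) (B : Finset Ed) (η : Vx → TT) : 0 < wt kX J B η :=
  Finset.prod_pos fun e _ => kX_pos _ _

/-- symmetrisation -/
theorem dup_eq {f w ws Bf : (Λ → TT) → ℝ} (hf : Continuous f) (hw : Continuous w)
    (hws : Continuous ws) (hB : Continuous Bf) :
    ∫ z : (Λ → TT) × (Λ → TT), (f z.1 - f z.2) *
      ((w z.1 * ws z.2 - ws z.1 * w z.2) * (Bf z.1 * Bf z.2)) ∂((unif Λ).prod (unif Λ)) =
    2 * ((∫ θ, f θ * (w θ * Bf θ) ∂unif Λ) * (∫ θ, ws θ * Bf θ ∂unif Λ) -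
      (∫ θ, f θ * (ws θ * Bf θ) ∂unif Λ) * (∫ θ, w θ * Bf θ ∂unif Λ)) := by
  have c1 : ∀ g : (Λ → TT) → ℝ, Continuous g →
      Continuous (fun z : (Λ → TT) × (Λ → TT) => g z.1) := fun g hg => hg.comp continuous_fst
  have c2 : ∀ g : (Λ → TT) → ℝ, Continuous g →
      Continuous (fun z : (Λ → TT) × (Λ → TT) => g z.2) := fun g hg => hg.comp continuous_snd
  have e1 : ∀ z : (Λ → TT) × (Λ → TT), (f z.1 - f z.2) *
      ((w z.1 * ws z.2 - ws z.1 * w z.2) * (Bf z.1 * Bf z.2)) =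
      (f z.1 * (w z.1 * Bf z.1)) * (ws z.2 * Bf z.2) - (f z.1 * (ws z.1 * Bf z.1)) * (w z.2 * Bf z.2)
      - (w z.1 * Bf z.1) * (f z.2 * (ws z.2 * Bf z.2)) + (ws z.1 * Bf z.1) * (f z.2 * (w z.2 * Bf z.2)) := by
    intro z; ring
  simp_rw [e1]
  have hwB := hw.mul hB
  have hwsB := hws.mul hB
  have hfw := hf.mul hwB
  have hfws := hf.mul hwsB
  rw [integral_add, integral_sub, integral_sub]
  · have i1 := integral_prod_mul (μ := unif Λ) (ν := unif Λ) (fun θ => f θ * (w θ * Bf θ)) (fun θ => ws θ * Bf θ)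
    have i2 := integral_prod_mul (μ := unif Λ) (ν := unif Λ) (fun θ => f θ * (ws θ * Bf θ)) (fun θ => w θ * Bf θ)
    have i3 := integral_prod_mul (μ := unif Λ) (ν := unif Λ) (fun θ => w θ * Bf θ) (fun θ => f θ * (ws θ * Bf θ))
    have i4 := integral_prod_mul (μ := unif Λ) (ν := unif Λ) (fun θ => ws θ * Bf θ) (fun θ => f θ * (w θ * Bf θ))
    rw [i1, i2, i3, i4]
    ring
  · exact integrable_of_cont _ ((c1 _ hfw).mul (c2 _ hwsB))
  · exact integrable_of_cont _ ((c1 _ hfws).mul (c2 _ hwB))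
  · exact integrable_of_cont _ (((c1 _ hfw).mul (c2 _ hwsB)).sub ((c1 _ hfws).mul (c2 _ hwB)))
  · exact integrable_of_cont _ ((c1 _ hwB).mul (c2 _ hfws))
  · exact integrable_of_cont _ ((((c1 _ hfw).mul (c2 _ hwsB)).sub ((c1 _ hfws).mul (c2 _ hwB))).sub
      ((c1 _ hwB).mul (c2 _ hfws)))
  · exact integrable_of_cont _ ((c1 _ hwsB).mul (c2 _ hfw))

end

section
variable (Λ : Finset Vx) (J : Ed → ℝ) (B : Finset Ed) (x u v : Vx)

/-- numerator -/
noncomputable def NX (s : ℝ) : ℝ :=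
  ∫ θ, ccos (chi Λ 0 x θ) * (eX s (chi Λ u v θ) * wt kX J B (ext Λ θ)) ∂unif Λ

/-- denominator -/
noncomputable def ZX (s : ℝ) : ℝ :=
  ∫ θ, eX s (chi Λ u v θ) * wt kX J B (ext Λ θ) ∂unif Λ

/-- the duplicated integrand -/
noncomputable def QX (s h : ℝ) (z : (Λ → TT) × (Λ → TT)) : ℝ :=
  (ccos (chi Λ 0 x z.1) - ccos (chi Λ 0 x z.2)) *
    ((eX (s + h) (chi Λ u v z.1) * eX s (chi Λ u v z.2) - eX s (chi Λ u v z.1) * eX (s + h) (chi Λ u v z.2)) *
      (wt kX J B (ext Λ z.1) * wt kX J B (ext Λ z.2)))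

theorem QX_cont (s h : ℝ) : Continuous (QX Λ J B x u v s h) := by
  have c1 : ∀ g : (Λ → TT) → ℝ, Continuous g →
      Continuous (fun z : (Λ → TT) × (Λ → TT) => g z.1) := fun g hg => hg.comp continuous_fst
  have c2 : ∀ g : (Λ → TT) → ℝ, Continuous g →
      Continuous (fun z : (Λ → TT) × (Λ → TT) => g z.2) := fun g hg => hg.comp continuous_snd
  have hf : Continuous (fun θ : Λ → TT => ccos (chi Λ 0 x θ)) := ccos_cont.comp (chi_cont Λ 0 x)
  have he : ∀ s, Continuous (fun θ : Λ → TT => eX s (chi Λ u v θ)) := fun s =>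
    (eX_cont s).comp (chi_cont Λ u v)
  have hw := wtX_cont Λ J B
  exact ((c1 _ hf).sub (c2 _ hf)).mul
    ((((c1 _ (he (s + h))).mul (c2 _ (he s))).sub ((c1 _ (he s)).mul (c2 _ (he (s + h))))).mul
      ((c1 _ hw).mul (c2 _ hw)))

theorem QX_int (s h : ℝ) : ∫ z, QX Λ J B x u v s h z ∂((unif Λ).prod (unif Λ)) =
    2 * (NX Λ J B x u v (s + h) * ZX Λ J B u v s - NX Λ J B x u v s * ZX Λ J B u v (s + h)) :=
  dup_eq Λ (f := fun θ => ccos (chi Λ 0 x θ)) (w := fun θ => eX (s + h) (chi Λ u v θ))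
    (ws := fun θ => eX s (chi Λ u v θ)) (Bf := fun θ => wt kX J B (ext Λ θ))
    (ccos_cont.comp (chi_cont Λ 0 x)) ((eX_cont _).comp (chi_cont Λ u v))
    ((eX_cont _).comp (chi_cont Λ u v)) (wtX_cont Λ J B)

theorem QX_dup (s h : ℝ) (a b : Λ → TT) : QX Λ J B x u v s h (a + b, a - b) =
    2 * (csin (chi Λ 0 x a) * csin (chi Λ 0 x b)) *
    (Real.exp (h * (ccos (chi Λ u v a) * ccos (chi Λ u v b))) *
      (Real.exp (h * (csin (chi Λ u v a) * csin (chi Λ u v b))) -
        Real.exp (-(h * (csin (chi Λ u v a) * csin (chi Λ u v b)))))) *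
    Real.exp (2 * s * (ccos (chi Λ u v a) * ccos (chi Λ u v b))) *
    (wt kX J B (ext Λ (a + b)) * wt kX J B (ext Λ (a - b))) := by
  unfold QX
  simp only [eX, chi_add, chi_sub]
  rw [ccos_p, ccos_m, ccos_p, ccos_m]
  set X := ccos (chi Λ u v a) * ccos (chi Λ u v b)
  set Y := csin (chi Λ u v a) * csin (chi Λ u v b)
  have e1 : Real.exp ((s + h) * (X - Y)) * Real.exp (s * (X + Y)) =
      Real.exp (h * X) * Real.exp (-(h * Y)) * Real.exp (2 * s * X) := by
    rw [← Real.exp_add, ← Real.exp_add, ← Real.exp_add]; congr 1; ring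
  have e2 : Real.exp (s * (X - Y)) * Real.exp ((s + h) * (X + Y)) =
      Real.exp (h * X) * Real.exp (h * Y) * Real.exp (2 * s * X) := by
    rw [← Real.exp_add, ← Real.exp_add, ← Real.exp_add]; congr 1; ring
  rw [e1, e2]
  ring

variable (hmul : TaskFLmul) (hser : TaskFLser) (hexp : TaskExp) (hdbl : TaskFLdouble)
include hmul hser hexp hdbl

theorem QX_nonneg {s h : ℝ} (hs : 0 ≤ s) (hh : 0 ≤ h) :
    0 ≤ ∫ z, QX Λ J B x u v s h z ∂((unif Λ).prod (unif Λ)) := by
  refine hdbl Λ _ (QX_cont Λ J B x u v s h) ?_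
  have hcu := ccos_cont.comp (chi_cont Λ u v)
  have hsu := csin_cont.comp (chi_cont Λ u v)
  have k1 : FL (fun a b : Λ → TT => 2 * (csin (chi Λ 0 x a) * csin (chi Λ 0 x b))) :=
    ((FK.single (csin_cont.comp (chi_cont Λ 0 x))).smul (c := 2) (by norm_num)).toFL
  have k2 := FL_exp hser hexp hcu (fun _ => ccos_le _) hh
  have k3 := FL_sinh hser hexp hsu (fun _ => csin_le _) hh
  have k4 := FL_exp hser hexp hcu (fun _ => ccos_le _) (r := 2 * s) (by positivity)
  have k5 := FL_wt hmul hser hexp Λ J B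
  refine FL.congr (hmul _ _ _ (hmul _ _ _ (hmul _ _ _ k1 (hmul _ _ _ k2 k3)) k4) k5) ?_
  intro a b
  rw [QX_dup]
  rfl

theorem QX_mono {s t h : ℝ} (hs : 0 ≤ s) (hst : s ≤ t) (hh : 0 ≤ h) :
    ∫ z, QX Λ J B x u v s h z ∂((unif Λ).prod (unif Λ)) ≤
      ∫ z, QX Λ J B x u v t h z ∂((unif Λ).prod (unif Λ)) := by
  rw [← sub_nonneg, ← integral_sub (integrable_of_cont _ (QX_cont Λ J B x u v t h))
    (integrable_of_cont _ (QX_cont Λ J B x u v s h))]
  refine hdbl Λ _ ((QX_cont Λ J B x u v t h).sub (QX_cont Λ J B x u v s h)) ?_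
  have hcu := ccos_cont.comp (chi_cont Λ u v)
  have hsu := csin_cont.comp (chi_cont Λ u v)
  have k1 : FL (fun a b : Λ → TT => 2 * (csin (chi Λ 0 x a) * csin (chi Λ 0 x b))) :=
    ((FK.single (csin_cont.comp (chi_cont Λ 0 x))).smul (c := 2) (by norm_num)).toFL
  have k2 := FL_exp hser hexp hcu (fun _ => ccos_le _) hh
  have k3 := FL_sinh hser hexp hsu (fun _ => csin_le _) hh
  have k4 := FL_exp hser hexp hcu (fun _ => ccos_le _) (r := t + s) (by linarith)
  have k4' := FL_sinh hser hexp hcu (fun _ => ccos_le _) (r := t - s) (by linarith)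
  have k5 := FL_wt hmul hser hexp Λ J B
  refine FL.congr (hmul _ _ _ (hmul _ _ _ (hmul _ _ _ k1 (hmul _ _ _ k2 k3)) (hmul _ _ _ k4 k4')) k5) ?_
  intro a b
  rw [QX_dup, QX_dup]
  simp only [Function.comp]
  set X := ccos (chi Λ u v a) * ccos (chi Λ u v b)
  have e1 : Real.exp ((t + s) * X) * (Real.exp ((t - s) * X) - Real.exp (-((t - s) * X))) =
      Real.exp (2 * t * X) - Real.exp (2 * s * X) := by
    rw [mul_sub, ← Real.exp_add, ← Real.exp_add]
    congr 2 <;> ring
  rw [e1]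
  ring

omit hmul hser hexp hdbl in
theorem ZX_pos (s : ℝ) : 0 < ZX Λ J B u v s := by
  have hw := wtX_cont Λ J B
  have hcont : Continuous (fun θ : Λ → TT => eX s (chi Λ u v θ) * wt kX J B (ext Λ θ)) :=
    ((eX_cont s).comp (chi_cont Λ u v)).mul hw
  have hpos : ∀ θ : Λ → TT, 0 < eX s (chi Λ u v θ) * wt kX J B (ext Λ θ) := fun θ =>
    mul_pos (eX_pos s _) (wtX_pos J B _)
  unfold ZX
  rw [integral_pos_iff_support_of_nonneg (fun θ => (hpos θ).le) (integrable_of_cont _ hcont)]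
  have : Function.support (fun θ : Λ → TT => eX s (chi Λ u v θ) * wt kX J B (ext Λ θ)) = univ := by
    ext θ; simpa using (hpos θ).ne'
  rw [this]
  simp

omit hmul hser hexp hdbl in
theorem ZX_le {s t : ℝ} (hst : s ≤ t) : ZX Λ J B u v t ≤ Real.exp (t - s) * ZX Λ J B u v s := by
  have hw := wtX_cont Λ J B
  unfold ZX
  rw [← integral_const_mul]
  refine integral_mono (integrable_of_cont _ (((eX_cont t).comp (chi_cont Λ u v)).mul hw))
    (integrable_of_cont _ (continuous_const.mul (((eX_cont s).comp (chi_cont Λ u v)).mul hw))) fun θ => ?_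
  simp only []
  rw [← mul_assoc]
  refine mul_le_mul_of_nonneg_right ?_ (wtX_pos J B _).le
  unfold eX
  rw [← Real.exp_add]
  refine Real.exp_le_exp.2 ?_
  have := (abs_le.1 (ccos_le (chi Λ u v θ))).2
  nlinarith

theorem GX_mono {s t : ℝ} (hs : 0 ≤ s) (hst : s ≤ t) :
    NX Λ J B x u v s / ZX Λ J B u v s ≤ NX Λ J B x u v t / ZX Λ J B u v t := by
  have h := QX_nonneg Λ J B x u v hmul hser hexp hdbl hs (h := t - s) (by linarith)
  rw [QX_int, show s + (t - s) = t by ring] at h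
  rw [div_le_div_iff₀ (ZX_pos Λ J B u v s) (ZX_pos Λ J B u v t)]
  linarith

theorem GX_incr {s t h : ℝ} (hs : 0 ≤ s) (hst : s ≤ t) (hh : 0 ≤ h) :
    Real.exp (-2 * (t - s)) * (NX Λ J B x u v (s + h) / ZX Λ J B u v (s + h) -
      NX Λ J B x u v s / ZX Λ J B u v s) ≤
    NX Λ J B x u v (t + h) / ZX Λ J B u v (t + h) - NX Λ J B x u v t / ZX Λ J B u v t := by
  have hD0 := QX_nonneg Λ J B x u v hmul hser hexp hdbl hs hh
  have hD := QX_mono Λ J B x u v hmul hser hexp hdbl hs hst hh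
  rw [QX_int] at hD0
  rw [QX_int, QX_int] at hD
  have z1 := ZX_pos Λ J B u v s
  have z2 := ZX_pos Λ J B u v (s + h)
  have z3 := ZX_pos Λ J B u v t
  have z4 := ZX_pos Λ J B u v (t + h)
  have l1 := ZX_le Λ J B u v hst
  have l2 := ZX_le Λ J B u v (s := s + h) (t := t + h) (by linarith)
  rw [show t + h - (s + h) = t - s by ring] at l2
  set N1 := NX Λ J B x u v s
  set N2 := NX Λ J B x u v (s + h)
  set N3 := NX Λ J B x u v t
  set N4 := NX Λ J B x u v (t + h)
  set Z1 := ZX Λ J B u v s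
  set Z2 := ZX Λ J B u v (s + h)
  set Z3 := ZX Λ J B u v t
  set Z4 := ZX Λ J B u v (t + h)
  set E := Real.exp (t - s)
  have hE : 0 < E := Real.exp_pos _
  have hE2 : Real.exp (-2 * (t - s)) = 1 / (E * E) := by
    rw [← Real.exp_add, one_div, ← Real.exp_neg]; congr 1; ring
  have hZ : Z3 * Z4 ≤ E * E * (Z1 * Z2) := by
    calc Z3 * Z4 ≤ (E * Z1) * (E * Z2) := mul_le_mul l1 l2 z4.le (by positivity)
      _ = _ := by ring
  have e1 : N2 / Z2 - N1 / Z1 = (N2 * Z1 - N1 * Z2) / (Z1 * Z2) := by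
    field_simp
  have e2 : N4 / Z4 - N3 / Z3 = (N4 * Z3 - N3 * Z4) / (Z3 * Z4) := by
    field_simp
  rw [e1, e2, hE2]
  have hD0' : 0 ≤ N2 * Z1 - N1 * Z2 := by linarith
  have hD' : N2 * Z1 - N1 * Z2 ≤ N4 * Z3 - N3 * Z4 := by linarith
  calc 1 / (E * E) * ((N2 * Z1 - N1 * Z2) / (Z1 * Z2)) = (N2 * Z1 - N1 * Z2) / (E * E * (Z1 * Z2)) := by
        field_simp
    _ ≤ (N2 * Z1 - N1 * Z2) / (Z3 * Z4) :=
        div_le_div_of_nonneg_left hD0' (by positivity) hZ
    _ ≤ (N4 * Z3 - N3 * Z4) / (Z3 * Z4) := div_le_div_of_nonneg_right hD' (by positivity)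

end

theorem goodX (hmul : TaskFLmul) (hser : TaskFLser) (hexp : TaskExp) (hdbl : TaskFLdouble)
    (hG : TaskGseq) : Gen.Good kX where
  cont := kX_cont
  pos := kX_pos
  nonpos s hs := kX_nonpos hs
  mono := by
    intro Λ J B x u v s hs
    have h := GX_mono Λ J B x u v hmul hser hexp hdbl (s := 0) (t := s) le_rfl hs.le
    rw [kX_of_pos hs]
    unfold NX ZX at h
    rw [eX_zero] at h
    exact h
  strict := by
    intro β β' hβ hlt
    obtain ⟨κ, h0, h1, h⟩ := hG β β' hβ hlt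
    refine ⟨κ, h0, h1, fun Λ J B x u v => ?_⟩
    have hh := h (fun s => NX Λ J B x u v s / ZX Λ J B u v s)
      (fun s t hs hst => GX_mono Λ J B x u v hmul hser hexp hdbl hs hst)
      (fun s t h hs hst hh => GX_incr Λ J B x u v hmul hser hexp hdbl hs hst hh)
    rw [kX_of_pos hβ, kX_of_pos (hβ.trans hlt)]
    unfold NX ZX at hh
    rw [eX_zero] at hh
    exact hh

end Pool.Agent.H890.XY
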