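import Pool.Agent.H890.XY.Stmts2

set_option autoImplicit false

/-! No interaction, no correlation. -/

namespace Pool.Agent.H890.XY

open MeasureTheory Set Filter Topology Real
open Pool.Agent.H890.Tilt
open scoped ENNReal

theorem z0_ccos_pi (t : TT) : ccos (((π : ℝ) : TT) + t) = - ccos t := by
  obtain ⟨s, rfl⟩ := QuotientAddGroup.mk_surjective t
  have h1 : (((π : ℝ) : TT) + (QuotientAddGroup.mk s : TT)) = ((π + s : ℝ) : TT) := rfl
  rw [h1]
  change Real.cos_periodic.lift ((π + s : ℝ) : TT) = - Real.cos_periodic.lift ((s : ℝ) : TT)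
  rw [Function.Periodic.lift_coe, Function.Periodic.lift_coe, add_comm, Real.cos_add_pi]

theorem z0_int (L : ℕ) (x : Vx) (hx : x ≠ 0) :
    ∫ θ, ccos (ext (box L) θ 0 - ext (box L) θ x) ∂(unif (box L)) = 0 := by
  classical
  have h0 : (0 : Vx) ∈ box L := by
    unfold box
    rw [Finset.mem_product]
    constructor <;> simp
  set v : (box L) → TT := fun y => if y.1 = 0 then ((π : ℝ) : TT) else 0 with hv
  have h1 := integral_add_left_eq_self (μ := unif (box L))
    (fun θ => ccos (ext (box L) θ 0 - ext (box L) θ x)) v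
  have h2 : ∀ θ : (box L) → TT, ccos (ext (box L) (v + θ) 0 - ext (box L) (v + θ) x) =
      - ccos (ext (box L) θ 0 - ext (box L) θ x) := by
    intro θ
    have h3 : ext (box L) (v + θ) 0 = ((π : ℝ) : TT) + ext (box L) θ 0 := by
      unfold ext
      rw [dif_pos h0, dif_pos h0, Pi.add_apply]
      simp [hv]
    have h4 : ext (box L) (v + θ) x = ext (box L) θ x := by
      unfold ext
      by_cases hxL : x ∈ box L
      · rw [dif_pos hxL, dif_pos hxL, Pi.add_apply]
        simp [hv, hx]
      · rw [dif_neg hxL, dif_neg hxL]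
    rw [h3, h4, add_sub_assoc, z0_ccos_pi]
  simp only [h2] at h1
  rw [integral_neg] at h1
  linarith

theorem z0 : TaskZ0 := by
  intro k hk p x hx
  have h1 : ∀ ω : Ed → Bool, ∀ L : ℕ, tpf k (Jof 0 ω) (box L) (edges L) x = 0 := by
    intro ω L
    unfold tpf
    have h2 : ∀ η : Vx → TT, wt k (Jof 0 ω) (edges L) η = 1 := by
      intro η
      unfold wt
      apply Finset.prod_eq_one
      intro e _
      have h3 : Jof 0 ω e = 0 := by
        unfold Jof
        split_ifs <;> rfl
      rw [h3, hk]
    simp only [h2, mul_one]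
    rw [z0_int L x hx, zero_div]
  have h2 : ∀ ω : Ed → Bool, tpInf k 0 ω x = 0 := by
    intro ω
    unfold tpInf
    simp only [h1 ω]
    exact Tendsto.limUnder_eq tendsto_const_nhds
  unfold avg
  simp only [h2, integral_zero]

end Pool.Agent.H890.XY
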