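import Pool.Agent.H890.XY.Stmts2

set_option autoImplicit false

namespace Pool.Agent.H890.XY

open MeasureTheory Set Filter Topology Real
open Pool.Agent.H890.Tilt
open scoped ENNReal

theorem ccos_add_pi (t : TT) : ccos (t + (π : ℝ)) = -ccos t := by
  induction t using QuotientAddGroup.induction_on with
  | H t =>
    show ccos (((t + π : ℝ)) : TT) = -ccos (t : TT)
    rw [ccos_coe, ccos_coe, Real.cos_add_pi]

theorem ccos_int_zero (Λ : Finset Vx) (x : Vx) (h0 : (0 : Vx) ∈ Λ) (hx : x ≠ 0) :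
    ∫ θ, ccos (ext Λ θ 0 - ext Λ θ x) ∂(unif Λ) = 0 := by
  classical
  let τ : Λ → TT := fun y => if (y : Vx) = 0 then ((π : ℝ) : TT) else 0
  have h := integral_add_left_eq_self (μ := unif Λ) (fun θ => ccos (ext Λ θ 0 - ext Λ θ x)) τ
  have e1 : ext Λ τ 0 = ((π : ℝ) : TT) := by
    unfold ext; simp [h0, τ]
  have e2 : ext Λ τ x = 0 := by
    unfold ext
    by_cases h : x ∈ Λ
    · simp [h, τ, hx]
    · simp [h]
  have e3 : ∀ θ : Λ → TT, ccos (ext Λ (τ + θ) 0 - ext Λ (τ + θ) x) =
      -ccos (ext Λ θ 0 - ext Λ θ x) := by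
    intro θ
    rw [ext_add, ext_add, e1, e2, ← ccos_add_pi]
    congr 1
    abel
  simp_rw [e3] at h
  rw [integral_neg] at h
  linarith

theorem z0m : TaskZ0 := by
  intro k hk p x hx
  have h1 : ∀ (ω : Ed → Bool) (L : ℕ), tpf k (Jof 0 ω) (box L) (edges L) x = 0 := by
    intro ω L
    have hw : ∀ η : Vx → TT, wt k (Jof 0 ω) (edges L) η = 1 := by
      intro η
      unfold wt
      refine Finset.prod_eq_one fun e _ => ?_
      have : Jof 0 ω e = 0 := by unfold Jof; simp
      rw [this, hk]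
    unfold tpf
    simp_rw [hw, mul_one]
    rw [ccos_int_zero (box L) x (by unfold box; simp) hx]
    simp
  have h2 : ∀ ω : Ed → Bool, tpInf k 0 ω x = 0 := by
    intro ω
    unfold tpInf
    have : (fun L : ℕ => tpf k (Jof 0 ω) (box L) (edges L) x) = fun _ => 0 := by
      funext L; exact h1 ω L
    rw [this]
    exact tendsto_const_nhds.limUnder_eq
  unfold avg
  simp_rw [h2]
  simp

end Pool.Agent.H890.XY
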